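import Pool.Agent.Run7.h876.PW.AllB
import Pool.Agent.Run7.h9.TP.GenD

/-!
# All bounds at once, for local data
-/

set_option autoImplicit false
set_option linter.unusedSectionVars false

namespace Run7.h876.PW.Al

open NumberField IsDedekindDomain Finset Filter Topology MeasureTheory
open Run7.h876.MM (nv kv two_le_nv nv_pos avg norm_avg_le SZ mem_SZ card_SZ instFieldKv instFintypeKv instDecKv)
open Run7.h876.EN Run7.h876.PW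
open Run7.h9.BS (cv cv_pos cv_le prop VZ VZ_nonneg VZ_atTop zetaProd LocalData)
open Run7.h9.BS.LocalData (prop_mono)
open Run7.h9.TP (lamOf lamOf_facts)

/-- the bound of the local functions -/
theorem lamOf_le {D q : ℝ} (hD : 0 ≤ D) (hq : 2 ≤ q) (a : ℕ → ℝ) (ha : ∀ m, |a m| ≤ D * Real.sqrt q ^ (m + 1)) :
    |lamOf q a| ≤ 4 * D / Real.sqrt q := by
  have h1 := (lamOf_facts hD hq a ha).2
  have hq0 : 0 < q := by linarith
  obtain ⟨Q, hQ⟩ : ∃ Q, Q = Real.sqrt q := ⟨_, rfl⟩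
  have hQ2 : 7 / 5 ≤ Q := by
    rw [hQ]
    exact Real.le_sqrt_of_sq_le (by norm_num; linarith)
  have hQ0 : 0 < Q := by linarith
  have hQQ : Q ^ 2 = q := by rw [hQ]; exact Real.sq_sqrt hq0.le
  have h2 := ha 0
  have h3 := ha 1
  rw [← hQ] at h1 h2 h3 ⊢
  rw [← hQQ] at h1
  rw [← hQQ]
  have e1 : |a 0 / Q ^ 2| ≤ D / Q := by
    rw [abs_div, abs_of_pos (by positivity : 0 < Q ^ 2), div_le_div_iff₀ (by positivity) hQ0]
    calc |a 0| * Q ≤ (D * Q ^ (0 + 1)) * Q := by gcongr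
      _ = D * Q ^ 2 := by ring
  have e2 : |a 1 / (2 * (Q ^ 2) ^ 2)| ≤ D / (2 * Q) := by
    rw [abs_div, abs_of_pos (by positivity : 0 < 2 * (Q ^ 2) ^ 2), div_le_div_iff₀ (by positivity) (by positivity)]
    calc |a 1| * (2 * Q) ≤ (D * Q ^ (1 + 1)) * (2 * Q) := by gcongr
      _ = 2 * D * (Q ^ 3 * 1) := by ring
      _ ≤ 2 * D * (Q ^ 3 * Q) := by
          have : 1 ≤ Q := by linarith
          gcongr
      _ = D * (2 * (Q ^ 2) ^ 2) := by ring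
  have e3 : 4 * D * (1 / Q) ^ 3 ≤ 5 / 2 * (D / Q) := by
    have : (1 / Q) ^ 3 ≤ 5 / 8 * (1 / Q) := by
      have h5 : 1 / Q ≤ 5 / 7 := by rw [div_le_iff₀ hQ0]; linarith
      have h6 : 0 < 1 / Q := by positivity
      have h7 : (1 / Q) ^ 2 ≤ 5 / 8 := by nlinarith
      calc (1 / Q) ^ 3 = (1 / Q) ^ 2 * (1 / Q) := by ring
        _ ≤ _ := mul_le_mul_of_nonneg_right h7 h6.le
    calc 4 * D * (1 / Q) ^ 3 ≤ 4 * D * (5 / 8 * (1 / Q)) := by gcongr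
      _ = _ := by ring
  have e4 : lamOf (Q ^ 2) a = (lamOf (Q ^ 2) a + (a 0 / Q ^ 2 + a 1 / (2 * (Q ^ 2) ^ 2))) - a 0 / Q ^ 2 - a 1 / (2 * (Q ^ 2) ^ 2) := by ring
  rw [e4]
  refine (abs_sub _ _).trans ((add_le_add ((abs_sub _ _).trans (add_le_add h1 e1)) e2).trans ?_)
  have e5 : D / (2 * Q) = 1 / 2 * (D / Q) := by field_simp
  have e6 : 4 * D / Q = 4 * (D / Q) := by ring
  rw [e5, e6]
  have : 0 ≤ D / Q := by positivity
  linarith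

section
variable {K : Type} [Field K] [NumberField K] {J : Type} [Fintype J] [DecidableEq J]

/-- The means of the local functions. -/
theorem mean_close (𝓛 : LocalData K J) : ∃ e : HeightOneSpectrum (𝓞 K) → ℝ, Summable e ∧
    ∀ v, |av Finset.univ (𝓛.lam v) - 𝓛.m * cv v| ≤ e v := by
  obtain ⟨u, hu, hub⟩ := 𝓛.moments 1 zero_le_one
  refine ⟨u, hu, fun v => ?_⟩
  obtain ⟨F, hF⟩ : ∃ F : ℂ → ℂ, F = fun κ => avg Finset.univ (fun t => Complex.exp (κ * 𝓛.lam v t -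
    (κ * 𝓛.m + κ ^ 2 * 𝓛.D / 2) * cv v)) - 1 := ⟨_, rfl⟩
  have hd1 : ∀ (t : J → kv v) (κ : ℂ), HasDerivAt (fun κ : ℂ => Complex.exp (κ * 𝓛.lam v t -
      (κ * 𝓛.m + κ ^ 2 * 𝓛.D / 2) * cv v)) (Complex.exp (κ * 𝓛.lam v t - (κ * 𝓛.m + κ ^ 2 * 𝓛.D / 2) * cv v) *
        (1 * 𝓛.lam v t - (1 * 𝓛.m + (2 * κ ^ (2 - 1) * 1) * 𝓛.D / 2) * cv v)) κ := by
    intro t κ
    refine HasDerivAt.cexp ?_
    refine ((hasDerivAt_id κ).mul_const _).sub (HasDerivAt.mul_const ?_ _)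
    refine ((hasDerivAt_id κ).mul_const _).add ?_
    exact (((hasDerivAt_id κ).pow 2).mul_const _).div_const _
  have hd2 : ∀ κ : ℂ, HasDerivAt F (avg Finset.univ (fun t => Complex.exp (κ * 𝓛.lam v t - (κ * 𝓛.m + κ ^ 2 * 𝓛.D / 2) * cv v) *
        (1 * 𝓛.lam v t - (1 * 𝓛.m + (2 * κ ^ (2 - 1) * 1) * 𝓛.D / 2) * cv v))) κ := by
    intro κ
    rw [hF]
    unfold avg
    exact ((HasDerivAt.fun_sum fun t _ => hd1 t κ).div_const _).sub_const _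
  have h1 : ‖deriv F 0‖ ≤ u v / 1 := by
    refine Complex.norm_deriv_le_of_forall_mem_sphere_norm_le one_pos ?_ ?_
    · exact Differentiable.diffContOnCl fun κ => (hd2 κ).differentiableAt
    · intro κ hκ
      rw [mem_sphere_iff_norm, sub_zero] at hκ
      rw [hF]
      exact hub v κ hκ.le
  rw [(hd2 0).deriv, div_one] at h1
  have e1 : avg Finset.univ (fun t => Complex.exp ((0 : ℂ) * 𝓛.lam v t - ((0 : ℂ) * 𝓛.m + (0 : ℂ) ^ 2 * 𝓛.D / 2) * cv v) *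
        (1 * 𝓛.lam v t - (1 * 𝓛.m + (2 * (0 : ℂ) ^ (2 - 1) * 1) * 𝓛.D / 2) * cv v)) =
      ((av Finset.univ (𝓛.lam v) - 𝓛.m * cv v : ℝ) : ℂ) := by
    have hc : ((Finset.univ : Finset (J → kv v)).card : ℂ) ≠ 0 := by
      rw [Finset.card_univ]; exact_mod_cast Fintype.card_pos.ne'
    have e2 : (fun t : J → kv v => Complex.exp ((0 : ℂ) * 𝓛.lam v t - ((0 : ℂ) * 𝓛.m + (0 : ℂ) ^ 2 * 𝓛.D / 2) * cv v) *
        (1 * 𝓛.lam v t - (1 * 𝓛.m + (2 * (0 : ℂ) ^ (2 - 1) * 1) * 𝓛.D / 2) * cv v)) = fun t => ((𝓛.lam v t : ℝ) : ℂ) - 𝓛.m * cv v := by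
      funext t
      have e3 : (0 : ℂ) * 𝓛.lam v t - ((0 : ℂ) * 𝓛.m + (0 : ℂ) ^ 2 * 𝓛.D / 2) * cv v = 0 := by ring
      rw [e3, Complex.exp_zero]
      norm_num
    rw [e2]
    unfold avg
    rw [Finset.sum_sub_distrib, Finset.sum_const, nsmul_eq_mul, sub_div, mul_div_cancel_left₀ _ hc]
    unfold av
    push_cast
    rfl
  rw [e1, Complex.norm_real, Real.norm_eq_abs] at h1
  exact h1

variable [Nonempty J] {ι : Type} [Fintype ι] [DecidableEq ι] (ω : Module.Basis ι ℤ (𝓞 K)) {G : Set (J → 𝓞 K)} {Cb : ℝ}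
variable (𝓛 : LocalData K J) (B : ℕ → (J → 𝓞 K) → ℝ) (hB : ∀ Z t, B Z t = Real.exp (𝓛.W Z t))

/-- `log M_Z` -/
theorem VZ_eq (Z : ℕ) : VZ K Z = Real.log (zetaProd K Z) := by
  unfold VZ zetaProd
  rw [Real.log_prod]
  · refine Finset.sum_congr rfl fun v _ => ?_
    unfold cv
    rw [Real.log_inv]
  · intro v _
    have h5 : (2 : ℝ) ≤ nv v := by exact_mod_cast two_le_nv v
    have h6 : 1 / (nv v : ℝ) ≤ 1 / 2 := one_div_le_one_div_of_le (by norm_num) h5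
    have : (0 : ℝ) < (1 - 1 / (nv v : ℝ))⁻¹ := inv_pos.2 (by linarith)
    exact this.ne'

include hB in
/-- **All bounds at once, for local data.** -/
theorem pw_all (hG : Thin ω G Cb) {A : ℝ} (hA : 0 < A) (hlam : ∀ v t, |𝓛.lam v t| ≤ A / Real.sqrt (nv v))
    {δ : ℝ} (hδ : 0 < δ) (k : ℕ) :
    ∃ C : ℕ, ∃ B' : ℝ, 0 < B' ∧ ∃ Z₁ : ℕ, ∀ Z₀ : ℕ, Z₁ ≤ Z₀ → ∀ H : J → ℕ,
      prop ω H G (fun t => ∃ Z : ℕ, Z₀ ≤ Z ∧ (∀ j, Z ^ C ≤ H j) ∧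
        Real.log (zetaProd K Z) ^ (1 / 2 + δ) < |Real.log (B Z t) - 𝓛.m * Real.log (zetaProd K Z)|) ≤
          B' / Real.log (zetaProd K Z₀) ^ k := by
  obtain ⟨e, he, hm⟩ := mean_close 𝓛
  obtain ⟨C, B', hB', Z₁, hZ₁⟩ := all_at_once ω 𝓛.lam hG hA hlam (fun v => 𝓛.m * cv v) e he hm hδ
    (a := (k : ℝ) + 1) (by positivity)
  obtain ⟨Z₂, hZ₂⟩ := Filter.eventually_atTop.1 ((VZ_atTop (K := K)).eventually_ge_atTop 1)
  refine ⟨C, B', hB', max Z₁ Z₂, fun Z₀ hZ₀ H => ?_⟩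
  have h1 := hZ₁ Z₀ ((le_max_left _ _).trans hZ₀) H
  have h2 := hZ₂ Z₀ ((le_max_right _ _).trans hZ₀)
  have e1 : ∀ Z t, SB 𝓛.lam (SZ K Z) t - ∑ v ∈ SZ K Z, 𝓛.m * cv v = Real.log (B Z t) - 𝓛.m * Real.log (zetaProd K Z) := by
    intro Z t
    rw [hB, Real.log_exp, ← VZ_eq, ← Finset.mul_sum]
    rfl
  simp only [e1, VZ_eq] at h1
  refine h1.trans ?_
  rw [← VZ_eq, div_eq_mul_inv]
  refine mul_le_mul_of_nonneg_left ?_ hB'.le
  rw [← Real.rpow_natCast, ← Real.rpow_neg (by linarith)]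
  exact Real.rpow_le_rpow_of_exponent_le h2 (by linarith)

include hB in
/-- **The nearest integer, for all bounds at once.** -/
theorem pw_all_round (hG : Thin ω G Cb) {A : ℝ} (hA : 0 < A) (hlam : ∀ v t, |𝓛.lam v t| ≤ A / Real.sqrt (nv v))
    (n : ℤ) (δ : ℝ) (hm : 𝓛.m = n + δ) (k : ℕ) :
    ∃ C : ℕ, ∃ B' : ℝ, 0 < B' ∧ ∃ Z₁ : ℕ, ∀ Z₀ : ℕ, Z₁ ≤ Z₀ → ∀ H : J → ℕ,
      prop ω H G (fun t => ∃ Z : ℕ, Z₀ ≤ Z ∧ (∀ j, Z ^ C ≤ H j) ∧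
        round (Real.log (B Z t) / Real.log (zetaProd K Z) - δ) ≠ n) ≤ B' / Real.log (zetaProd K Z₀) ^ k := by
  obtain ⟨C, B', hB', Z₁, hZ₁⟩ := pw_all ω 𝓛 B hB hG hA hlam (δ := 1 / 4) (by norm_num) k
  have hev : ∀ᶠ y : ℝ in atTop, y ^ (1 / 2 + 1 / 4 : ℝ) < 1 / 2 * y := by
    have h1 : Tendsto (fun y : ℝ => y ^ (1 / 4 : ℝ)) atTop atTop := tendsto_rpow_atTop (by norm_num)
    filter_upwards [h1.eventually_gt_atTop 2, eventually_gt_atTop (0 : ℝ)] with y hy hy0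
    have e1 : y = y ^ (1 / 2 + 1 / 4 : ℝ) * y ^ (1 / 4 : ℝ) := by
      rw [← Real.rpow_add hy0]
      norm_num
    have h2 : 0 < y ^ (1 / 2 + 1 / 4 : ℝ) := Real.rpow_pos_of_pos hy0 _
    nlinarith
  obtain ⟨Z₂, hZ₂⟩ := Filter.eventually_atTop.1 (((VZ_atTop (K := K)).eventually hev).and ((VZ_atTop (K := K)).eventually_ge_atTop 1))
  refine ⟨C, B', hB', max Z₁ Z₂, fun Z₀ hZ₀ H => (prop_mono ω H fun t ht => ?_).trans (hZ₁ Z₀ ((le_max_left _ _).trans hZ₀) H)⟩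
  obtain ⟨Z, hZ, hZH, hr⟩ := ht
  obtain ⟨h1, h2⟩ := hZ₂ Z (((le_max_right _ _).trans hZ₀).trans hZ)
  rw [VZ_eq] at h1 h2
  refine ⟨Z, hZ, hZH, lt_of_lt_of_le h1 ?_⟩
  exact round_aux hm (by linarith) hr

end

end Run7.h876.PW.Al
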