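import Pool.Agent.Run7.h876.PW.Tail
import Pool.Agent.Run7.h9.TP.GenD

/-!
# The conclusions for products of local factors, over boxes whose sides are powers of the bound
-/

set_option autoImplicit false
set_option linter.unusedSectionVars false

namespace Run7.h876.PW

open NumberField IsDedekindDomain Finset Filter Topology
open Run7.h876.MM (nv kv two_le_nv nv_pos avg SZ mem_SZ instFieldKv instFintypeKv instDecKv)
open Run7.h876.EN Run7.h9.BS Run7.h9.BS.LocalData Run7.h9.TP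

section
variable {K : Type} [Field K] [NumberField K] {J : Type} [Fintype J] [DecidableEq J]
variable {ι : Type} [Fintype ι] [DecidableEq ι] (ω : Module.Basis ι ℤ (𝓞 K)) {G : Set (J → 𝓞 K)} {Cb : ℝ}
variable (𝓛 : LocalData K J) (B : ℕ → (J → 𝓞 K) → ℝ) (hB : ∀ Z t, B Z t = Real.exp (𝓛.W Z t))

include hB

/-- **The normal law** in the range `Z ^ C ≤ H`. -/
theorem pw_clt (hCb : 0 ≤ Cb) (hG : Thin ω G Cb) (a : ℝ) {ε : ℝ} (hε : 0 < ε) :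
    ∃ C Z₀ : ℕ, ∀ Z : ℕ, Z₀ ≤ Z → ∀ H : J → ℕ, (∀ j, Z ^ C ≤ H j) →
      |prop ω H G (fun t => Real.log (B Z t) ≤
        𝓛.m * Real.log (zetaProd K Z) + a * Real.sqrt (𝓛.D * Real.log (zetaProd K Z))) - Phi a| ≤ ε := by
  obtain ⟨C, Z₀, hZ₀⟩ := clt 𝓛 ω hCb hG a hε
  refine ⟨C, Z₀, fun Z hZ H hH => ?_⟩
  have h := hZ₀ Z hZ H hH
  refine le_trans (le_of_eq ?_) h
  congr 3
  funext t
  rw [gen_log 𝓛 B hB, log_zetaProd]

/-- **Large deviations** in the range `Z ^ (C log log Z) ≤ H`. -/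
theorem pw_tail (hG : Thin ω G Cb) {a : ℝ} (ha : 0 < a) :
    ∃ C : ℝ, 0 < C ∧ ∃ Z₀ : ℕ, ∀ Z : ℕ, Z₀ ≤ Z → ∀ H : J → ℕ, (∀ j, (Z : ℝ) ^ (C * Real.log (zetaProd K Z)) ≤ H j) →
      prop ω H G (fun t => a * Real.log (zetaProd K Z) ≤
        |Real.log (B Z t) - 𝓛.m * Real.log (zetaProd K Z)|) ≤ C * zetaProd K Z ^ (-(a ^ 2 / (2 * 𝓛.D))) := by
  obtain ⟨C, hC, Z₀, hZ₀⟩ := tail 𝓛 ω hG ha
  refine ⟨C, hC, Z₀, fun Z hZ H hH => ?_⟩
  have h := hZ₀ Z hZ H (fun j => by rw [← log_zetaProd]; exact hH j)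
  rw [zetaProd_eq, ← Real.exp_mul, Real.log_exp]
  refine le_trans (le_of_eq ?_) (h.trans (le_of_eq ?_))
  · congr 1
    funext t
    rw [gen_log 𝓛 B hB]
  · congr 2
    ring

/-- **Large deviations** in the range `Z ^ C ≤ H`. -/
theorem pw_tail_pow (hG : Thin ω G Cb) (k : ℕ) :
    ∃ C : ℕ, ∃ A : ℝ, 0 < A ∧ ∃ Z₀ : ℕ, ∀ Z : ℕ, Z₀ ≤ Z → ∀ H : J → ℕ, (∀ j, Z ^ C ≤ H j) → ∀ a : ℝ, 0 < a →
      prop ω H G (fun t => a * Real.log (zetaProd K Z) ≤ |Real.log (B Z t) - 𝓛.m * Real.log (zetaProd K Z)|) ≤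
        A / (a ^ (2 * k) * Real.log (zetaProd K Z) ^ k) := by
  obtain ⟨C, A, hA, Z₀, hZ₀⟩ := tail_pow 𝓛 ω hG k
  refine ⟨C, A, hA, Z₀, fun Z hZ H hH a ha => ?_⟩
  have h := hZ₀ Z hZ H hH a ha
  rw [log_zetaProd]
  refine le_trans (le_of_eq ?_) h
  congr 1
  funext t
  rw [gen_log 𝓛 B hB]

omit hB in
theorem round_aux {n : ℤ} {δ m b V : ℝ} (hm : m = n + δ) (hV : 0 < V) (ht : round (b / V - δ) ≠ n) : 1 / 2 * V ≤ |b - m * V| := by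
  by_contra hcon
  rw [not_le] at hcon
  apply ht
  rw [hm] at hcon
  rw [abs_lt] at hcon
  rw [round_eq, Int.floor_eq_iff]
  constructor
  · have : (n : ℝ) + δ - 1 / 2 ≤ b / V := by
      rw [le_div_iff₀ hV]
      nlinarith [hcon.1]
    linarith
  · have : b / V < (n : ℝ) + δ + 1 / 2 := by
      rw [div_lt_iff₀ hV]
      nlinarith [hcon.2]
    linarith

/-- **Rounding** in the range `Z ^ (C log log Z) ≤ H`. -/
theorem pw_round (hG : Thin ω G Cb) (n : ℤ) (δ : ℝ) (hm : 𝓛.m = n + δ) :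
    ∃ C : ℝ, 0 < C ∧ ∃ Z₀ : ℕ, ∀ Z : ℕ, Z₀ ≤ Z → ∀ H : J → ℕ, (∀ j, (Z : ℝ) ^ (C * Real.log (zetaProd K Z)) ≤ H j) →
      prop ω H G (fun t => round (Real.log (B Z t) / Real.log (zetaProd K Z) - δ) ≠ n) ≤
        C * zetaProd K Z ^ (-(1 / (8 * 𝓛.D))) := by
  obtain ⟨C, hC, Z₀, hZ₀⟩ := pw_tail ω 𝓛 B hB hG (a := 1 / 2) (by norm_num)
  obtain ⟨Z₁, hZ₁⟩ := Filter.eventually_atTop.1 ((VZ_atTop (K := K)).eventually_gt_atTop 0)
  refine ⟨C, hC, max Z₀ Z₁, fun Z hZ H hH => ?_⟩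
  have h := hZ₀ Z ((le_max_left _ _).trans hZ) H hH
  have hV : 0 < Real.log (zetaProd K Z) := by
    rw [log_zetaProd]
    exact hZ₁ Z ((le_max_right _ _).trans hZ)
  refine (prop_mono ω H fun t ht => ?_).trans (h.trans (le_of_eq ?_))
  · exact round_aux hm hV ht
  · have hD := 𝓛.D_pos
    congr 2
    field_simp
    norm_num

/-- **Rounding** in the range `Z ^ C ≤ H`. -/
theorem pw_round_pow (hG : Thin ω G Cb) (n : ℤ) (δ : ℝ) (hm : 𝓛.m = n + δ) (k : ℕ) :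
    ∃ C : ℕ, ∃ A : ℝ, 0 < A ∧ ∃ Z₀ : ℕ, ∀ Z : ℕ, Z₀ ≤ Z → ∀ H : J → ℕ, (∀ j, Z ^ C ≤ H j) →
      prop ω H G (fun t => round (Real.log (B Z t) / Real.log (zetaProd K Z) - δ) ≠ n) ≤
        A / Real.log (zetaProd K Z) ^ k := by
  obtain ⟨C, A, hA, Z₀, hZ₀⟩ := pw_tail_pow ω 𝓛 B hB hG k
  obtain ⟨Z₁, hZ₁⟩ := Filter.eventually_atTop.1 ((VZ_atTop (K := K)).eventually_gt_atTop 0)
  refine ⟨C, A * 2 ^ (2 * k), by positivity, max Z₀ Z₁, fun Z hZ H hH => ?_⟩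
  have h := hZ₀ Z ((le_max_left _ _).trans hZ) H hH (1 / 2) (by norm_num)
  have hV : 0 < Real.log (zetaProd K Z) := by
    rw [log_zetaProd]
    exact hZ₁ Z ((le_max_right _ _).trans hZ)
  refine (prop_mono ω H fun t ht => ?_).trans (h.trans (le_of_eq ?_))
  · exact round_aux hm hV ht
  · rw [one_div, inv_pow]
    field_simp

end

end Run7.h876.PW
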