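import Pool.Agent.Run7.h876.PW.Char

/-!
# The central limit theorem over boxes whose sides are powers of the bound
-/

set_option autoImplicit false
set_option linter.unusedSectionVars false

namespace Run7.h876.PW

open NumberField IsDedekindDomain Finset Filter Topology MeasureTheory
open Run7.h876.MM (nv kv two_le_nv nv_pos avg norm_avg_le tail_bound tail_small SZ mem_SZ card_SZ instFieldKv instFintypeKv instDecKv)
open Run7.h876.EN Run7.h9.BS

section
variable {K : Type} [Field K] [NumberField K] {J : Type} [Fintype J] [DecidableEq J] (𝓛 : LocalData K J)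
variable {ι : Type} [Fintype ι] [DecidableEq ι] (ω : Module.Basis ι ℤ (𝓞 K)) {G : Set (J → 𝓞 K)} {Cb : ℝ}

open Classical in
/-- Most tuples are in the thick set. -/
theorem card_thick (hG : Thin ω G Cb) (H : J → ℕ) (M : ℕ) (hH : ∀ j, M ≤ H j) (hM : 2 * Cb ≤ 2 * M + 1) :
    ((box ι H).card : ℝ) ≤ 2 * (((box ι H).filter fun c => tuple ω c ∈ G).card : ℝ) := by
  have h1 := hG H M hH
  have h2 : (((box ι H).filter fun c => tuple ω c ∈ G).card : ℝ) + (((box ι H).filter fun c => ¬ (tuple ω c ∈ G)).card : ℝ) =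
      (box ι H).card := by
    exact_mod_cast Finset.card_filter_add_card_filter_not (s := box ι H) (fun c => tuple ω c ∈ G)
  have hpos : (0 : ℝ) < (box ι H).card := by exact_mod_cast card_box_pos H
  have h3 : (0 : ℝ) ≤ M := by positivity
  have h4 : (((box ι H).filter fun c => ¬ (tuple ω c ∈ G)).card : ℝ) ≤ (box ι H).card / 2 := by
    rw [le_div_iff₀ (by norm_num)]
    have h5 : (((box ι H).filter fun c => ¬ (tuple ω c ∈ G)).card : ℝ) * (2 * M + 1) ≤ (2 * M + 1) / 2 * (box ι H).card :=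
      h1.trans (mul_le_mul_of_nonneg_right (by linarith) hpos.le)
    have h6 : (0 : ℝ) < 2 * M + 1 := by linarith
    by_contra hcon
    push Not at hcon
    nlinarith
  linarith

theorem nonempty_thick (hG : Thin ω G Cb) : ∃ Z₀ : ℕ, ∀ Z : ℕ, Z₀ ≤ Z → ∀ H : J → ℕ, (∀ j, Z ≤ H j) →
    ∀ [DecidablePred fun c => tuple ω c ∈ G], ((box ι H).filter fun c => tuple ω c ∈ G).Nonempty := by
  obtain ⟨Z₀, hZ₀⟩ := exists_nat_ge Cb
  refine ⟨Z₀, fun Z hZ H hH _ => ?_⟩
  have h := card_thick ω hG H Z hH (by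
    have : (Z₀ : ℝ) ≤ Z := by exact_mod_cast hZ
    have h0 : (0 : ℝ) ≤ Z := by positivity
    linarith)
  have hpos : (0 : ℝ) < (box ι H).card := by exact_mod_cast card_box_pos H
  rw [← Finset.card_pos]
  by_contra hne
  have h0 : ((box ι H).filter fun c => tuple ω c ∈ G).card = 0 := by omega
  have e : (@Finset.filter _ (fun c => tuple ω c ∈ G) (Classical.decPred _) (box ι H)).card = 0 := by
    rw [← h0]
    congr
  rw [e] at h
  push_cast at h
  linarith

/-- **The central limit theorem, with powers.** -/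
theorem clt (hCb : 0 ≤ Cb) (hG : Thin ω G Cb) (a : ℝ) {ε : ℝ} (hε : 0 < ε) :
    ∃ C Z₀ : ℕ, ∀ Z : ℕ, Z₀ ≤ Z → ∀ H : J → ℕ, (∀ j, Z ^ C ≤ H j) →
      |prop ω H G (fun t => 𝓛.W Z t ≤ 𝓛.m * VZ K Z + a * Real.sqrt (𝓛.D * VZ K Z)) - Phi a| ≤ ε := by
  classical
  by_contra hcon
  push Not at hcon
  obtain ⟨Z₁, hZ₁⟩ := nonempty_thick ω hG
  obtain ⟨Z₂, hZ₂⟩ := Filter.eventually_atTop.1 ((VZ_atTop (K := K)).eventually_ge_atTop 1)
  choose Zn hZn Hn hHn hbad using fun n : ℕ => hcon (n + 1) (max (n + 1) (max Z₁ Z₂))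
  have hZnn1 : ∀ n, n + 1 ≤ Zn n := fun n => (le_max_left _ _).trans (hZn n)
  have hZnn : ∀ n, n ≤ Zn n := fun n => (Nat.le_succ n).trans (hZnn1 n)
  have hZ1 : ∀ n, 1 ≤ Zn n := fun n => (Nat.succ_le_succ (Nat.zero_le n)).trans (hZnn1 n)
  have hZn1 : ∀ n, Z₁ ≤ Zn n := fun n => ((le_max_left _ _).trans (le_max_right _ _)).trans (hZn n)
  have hV1 : ∀ n, 1 ≤ VZ K (Zn n) := fun n => hZ₂ _ (((le_max_right _ _).trans (le_max_right _ _)).trans (hZn n))
  have hD := 𝓛.D_pos
  set V : ℕ → ℝ := fun n => VZ K (Zn n) with hV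
  set S : ℕ → Finset (J × ι → ℤ) := fun n => (box ι (Hn n)).filter fun c => tuple ω c ∈ G with hS
  have hSne : ∀ n, (S n).Nonempty := fun n => hZ₁ (Zn n) (hZn1 n) (Hn n) (fun j => by
    refine le_trans ?_ (hHn n j)
    calc Zn n = Zn n ^ 1 := (pow_one _).symm
      _ ≤ _ := Nat.pow_le_pow_right (hZ1 n) (by omega))
  set X : ∀ n : ℕ, (J × ι → ℤ) → ℝ := fun n c => (𝓛.W (Zn n) (tuple ω c) - 𝓛.m * V n) / Real.sqrt (𝓛.D * V n) with hX
  set μ : ℕ → ProbabilityMeasure ℝ := fun n => ⟨emp (S n) (X n), emp_prob _ (hSne n) _⟩ with hμ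
  set μ₀ : ProbabilityMeasure ℝ := ⟨ProbabilityTheory.gaussianReal 0 1, inferInstance⟩ with hμ₀
  have hconv : Tendsto μ atTop (𝓝 μ₀) := by
    refine ProbabilityMeasure.tendsto_of_tendsto_charFun fun u => ?_
    show Tendsto (fun n => charFun (emp (S n) (X n)) u) atTop (𝓝 (charFun (ProbabilityTheory.gaussianReal 0 1) u))
    rw [ProbabilityTheory.charFun_gaussianReal]
    have hfin : ∀ n, charFun (emp (S n) (X n)) u = mean ω (Hn n) G (fun t =>
        Complex.exp (Complex.I * (u / Real.sqrt (𝓛.D * VZ K (Zn n)) : ℝ) * ((𝓛.W (Zn n) t - 𝓛.m * VZ K (Zn n) : ℝ) : ℂ))) := by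
      intro n
      rw [emp_charFun]
      unfold mean
      have e1 : ∀ c, Complex.exp (u * (X n c : ℂ) * Complex.I) =
          Complex.exp (Complex.I * (u / Real.sqrt (𝓛.D * VZ K (Zn n)) : ℝ) *
            ((𝓛.W (Zn n) (tuple ω c) - 𝓛.m * VZ K (Zn n) : ℝ) : ℂ)) := by
        intro c
        congr 1
        simp only [hX, hV]
        push_cast
        ring
      simp only [e1]
      rfl
    have e5 : Complex.exp (u * ((0 : ℝ) : ℂ) * Complex.I - ((1 : NNReal) : ℝ) * (u : ℂ) ^ 2 / 2) = Complex.exp (-((u : ℂ) ^ 2 / 2)) := by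
      congr 1
      push_cast
      ring
    rw [e5, Metric.tendsto_atTop]
    intro δ hδ
    obtain ⟨C', Z', h'⟩ := box_char 𝓛 ω hCb hG (R := |u|) (abs_nonneg u) (half_pos hδ)
    refine ⟨max C' Z', fun n hn => ?_⟩
    rw [dist_eq_norm, hfin]
    have h1 := h' (Zn n) (((le_max_right _ _).trans hn).trans (hZnn n)) (Hn n) (fun j => by
      refine le_trans ?_ (hHn n j)
      exact Nat.pow_le_pow_right (hZ1 n) (((le_max_left _ _).trans hn).trans (Nat.le_succ n))) u le_rfl
    linarith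
  have hfr : (μ₀ : Measure ℝ) (frontier (Set.Iic a)) = 0 := by
    rw [frontier_Iic]
    show (ProbabilityTheory.gaussianReal 0 1) {a} = 0
    have := ProbabilityTheory.nullSingletonClass_gaussianReal (μ := 0) (v := 1) one_ne_zero
    exact measure_singleton a
  have hport := ProbabilityMeasure.tendsto_measure_of_null_frontier_of_tendsto' hconv hfr
  have hport2 : Tendsto (fun n => (emp (S n) (X n)).real (Set.Iic a)) atTop (𝓝 (Phi a)) := by
    have := (ENNReal.tendsto_toReal (measure_ne_top (μ₀ : Measure ℝ) (Set.Iic a))).comp hport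
    exact this
  have hev := (Metric.tendsto_atTop.1 hport2 ε hε)
  obtain ⟨N, hN⟩ := hev
  have h1 := hN N le_rfl
  rw [Real.dist_eq, emp_Iic] at h1
  have h2 := hbad N
  have hVn : 0 < V N := by have := hV1 N; show 0 < VZ K (Zn N); linarith
  have hs : 0 < Real.sqrt (𝓛.D * V N) := Real.sqrt_pos.2 (by positivity)
  have e : prop ω (Hn N) G (fun t => 𝓛.W (Zn N) t ≤ 𝓛.m * VZ K (Zn N) + a * Real.sqrt (𝓛.D * VZ K (Zn N))) =
      (((S N).filter fun c => X N c ≤ a).card : ℝ) / (S N).card := by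
    unfold prop
    congr 2
    simp only [hS, Finset.filter_filter, hX]
    congr 1
    refine Finset.filter_congr fun c _ => and_congr_right fun _ => ?_
    rw [div_le_iff₀ hs, sub_le_iff_le_add, add_comm]
  rw [e] at h2
  linarith

end

end Run7.h876.PW
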