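import Pool.Agent.Run7.h876.PW.Clt

/-!
# Large deviations over boxes whose sides are powers of the bound
-/

set_option autoImplicit false
set_option linter.unusedSectionVars false

namespace Run7.h876.PW

open NumberField IsDedekindDomain Finset Filter Topology MeasureTheory
open Run7.h876.MM (nv kv two_le_nv nv_pos avg norm_avg_le tail_bound tail_small SZ mem_SZ card_SZ instFieldKv instFintypeKv instDecKv)
open Run7.h876.EN Run7.h9.BS

theorem Tp_le' (n : ℕ) {x : ℝ} (hx : 0 ≤ x) : Tp n x ≤ (1 + x) ^ n := by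
  rcases n with _ | n
  · unfold Tp; simp
  · exact (Tp_le n hx).trans (pow_le_pow_right₀ (by linarith) (Nat.le_succ n))

section
variable {K : Type} [Field K] [NumberField K]
variable {ι : Type} [Fintype ι] [DecidableEq ι] {J : Type} [Fintype J] [DecidableEq J]
variable (ω : Module.Basis ι ℤ (𝓞 K))
variable (X : ∀ v : HeightOneSpectrum (𝓞 K), (J → kv v) → ℝ)

theorem av_Qp {α : Type*} (B : Finset α) (f : α → ℝ) (n : ℕ) (b : ℝ) : av B (fun c => Qp n (b * f c)) =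
    ∑ j ∈ range n, ∑ l ∈ range n, ((b / 2) ^ j / j.factorial * ((b / 2) ^ l / l.factorial)) * av B (fun c => f c ^ (j + l)) := by
  simp only [Qp_eq]
  rw [av_sum]
  refine Finset.sum_congr rfl fun j _ => ?_
  rw [av_sum]
  refine Finset.sum_congr rfl fun l _ => ?_
  rw [av_mul]

/-- The means of the polynomials over the box and over the independent variables. -/
theorem Q_close (F : Finset (HeightOneSpectrum (𝓞 K))) {A : ℝ} (hA : 0 ≤ A) (hX : ∀ v t, |X v t| ≤ A) {Z n M : ℕ} (hZ : 1 ≤ Z)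
    (hF : ∀ v ∈ F, nv v ≤ Z) (H : J → ℕ) (hH : ∀ j, M ≤ H j) (hM : Z ^ (2 * n) ≤ 2 * M + 1) (b : ℝ) :
    av (box ι H) (fun c => Qp n (b * SB X F (tuple ω c))) ≤ av (Finset.univ : Finset (TS F J)) (fun t => Qp n (b * SM X F t)) +
      (1 + |b| * (F.card * A) / 2) ^ (2 * n) * (2 ^ Fintype.card (J × ι) * ((Z : ℝ) ^ (2 * n) / (2 * M + 1))) := by
  obtain ⟨δ, hδ⟩ : ∃ δ : ℝ, δ = 2 ^ Fintype.card (J × ι) * ((Z : ℝ) ^ (2 * n) / (2 * M + 1)) := ⟨_, rfl⟩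
  have hδ0 : 0 ≤ δ := by rw [hδ]; positivity
  rw [av_Qp, av_Qp, ← sub_le_iff_le_add', ← Finset.sum_sub_distrib, ← hδ]
  have h1 : ∀ j ∈ range n, ∑ l ∈ range n, ((b / 2) ^ j / j.factorial * ((b / 2) ^ l / l.factorial)) *
        av (box ι H) (fun c => SB X F (tuple ω c) ^ (j + l)) -
      ∑ l ∈ range n, ((b / 2) ^ j / j.factorial * ((b / 2) ^ l / l.factorial)) *
        av (Finset.univ : Finset (TS F J)) (fun t => SM X F t ^ (j + l)) ≤
      ∑ l ∈ range n, ((|b| * (F.card * A) / 2) ^ j / j.factorial * ((|b| * (F.card * A) / 2) ^ l / l.factorial)) * δ := by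
    intro j hj
    rw [← Finset.sum_sub_distrib]
    refine Finset.sum_le_sum fun l hl => ?_
    rw [← mul_sub]
    have hjl : j + l ≤ 2 * n := by
      have := Finset.mem_range.1 hj
      have := Finset.mem_range.1 hl
      omega
    have h2 := mom_close ω X F hA hX hZ hF H hH hM hjl
    rw [← hδ] at h2
    refine (le_abs_self _).trans ?_
    rw [abs_mul]
    have e : |(b / 2) ^ j / (j.factorial : ℝ) * ((b / 2) ^ l / (l.factorial : ℝ))| =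
        (|b| / 2) ^ j / j.factorial * ((|b| / 2) ^ l / l.factorial) := by
      rw [abs_mul, abs_div, abs_div, abs_pow, abs_pow, abs_div, abs_two,
        abs_of_nonneg (by positivity : (0 : ℝ) ≤ (j.factorial : ℝ)), abs_of_nonneg (by positivity : (0 : ℝ) ≤ (l.factorial : ℝ))]
    rw [e]
    calc (|b| / 2) ^ j / j.factorial * ((|b| / 2) ^ l / l.factorial) *
          |av (box ι H) (fun c => SB X F (tuple ω c) ^ (j + l)) - av (Finset.univ : Finset (TS F J)) (fun t => SM X F t ^ (j + l))| ≤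
        (|b| / 2) ^ j / j.factorial * ((|b| / 2) ^ l / l.factorial) * ((F.card * A) ^ (j + l) * δ) :=
          mul_le_mul_of_nonneg_left h2 (by positivity)
      _ = _ := by
          have e2 : |b| * (F.card * A) / 2 = |b| / 2 * (F.card * A) := by ring
          rw [e2, mul_pow (|b| / 2) _ j, mul_pow (|b| / 2) _ l, pow_add]
          ring
  refine (Finset.sum_le_sum h1).trans ?_
  have e : ∑ j ∈ range n, ∑ l ∈ range n, ((|b| * (F.card * A) / 2) ^ j / j.factorial * ((|b| * (F.card * A) / 2) ^ l / l.factorial)) * δ =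
      Tp n (|b| * (F.card * A) / 2) ^ 2 * δ := by
    unfold Tp
    rw [sq, Finset.sum_mul_sum, Finset.sum_mul]
    refine Finset.sum_congr rfl fun j _ => ?_
    rw [Finset.sum_mul]
  rw [e]
  refine mul_le_mul_of_nonneg_right ?_ hδ0
  rw [mul_comm 2 n, pow_mul]
  have hx : 0 ≤ |b| * (F.card * A) / 2 := by positivity
  exact pow_le_pow_left₀ (Tp_nonneg n hx) (Tp_le' n hx) 2

open Classical in
/-- Markov's inequality. -/
theorem prop_le {G : Set (J → 𝓞 K)} {Cb : ℝ} (hG : Thin ω G Cb) (H : J → ℕ) (M : ℕ) (hH : ∀ j, M ≤ H j)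
    (hM : 2 * Cb ≤ 2 * M + 1) (P : (J → 𝓞 K) → Prop) (g : (J × ι → ℤ) → ℝ) (hg0 : ∀ c, 0 ≤ g c) {w : ℝ} (hw : 0 < w)
    (hg : ∀ c, P (tuple ω c) → w ≤ g c) : prop ω H G P ≤ 2 * (av (box ι H) g / w) := by
  have h1 := card_thick ω hG H M hH hM
  have hpos : (0 : ℝ) < (box ι H).card := by exact_mod_cast card_box_pos H
  have h2 : (((box ι H).filter fun c => tuple ω c ∈ G ∧ P (tuple ω c)).card : ℝ) * w ≤ ∑ c ∈ box ι H, g c := by
    rw [← nsmul_eq_mul, ← Finset.sum_const]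
    refine (Finset.sum_le_sum fun c hc => hg c (Finset.mem_filter.1 hc).2.2).trans ?_
    exact Finset.sum_le_sum_of_subset_of_nonneg (Finset.filter_subset _ _) fun c _ _ => hg0 c
  unfold prop av
  have h3 : 0 < (((box ι H).filter fun c => tuple ω c ∈ G).card : ℝ) := by linarith
  rw [div_le_iff₀ h3]
  have h4 : (((box ι H).filter fun c => tuple ω c ∈ G ∧ P (tuple ω c)).card : ℝ) ≤ (∑ c ∈ box ι H, g c) / w := by
    rwa [le_div_iff₀ hw]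
  have h5 : 0 ≤ (∑ c ∈ box ι H, g c) / w := div_nonneg (Finset.sum_nonneg fun c _ => hg0 c) hw.le
  calc _ ≤ (∑ c ∈ box ι H, g c) / w := h4
    _ = (∑ c ∈ box ι H, g c) / w / (box ι H).card * (box ι H).card := by field_simp
    _ ≤ (∑ c ∈ box ι H, g c) / w / (box ι H).card * (2 * (((box ι H).filter fun c => tuple ω c ∈ G).card : ℝ)) := by
        gcongr
    _ = _ := by ring

end

section
variable {K : Type} [Field K] [NumberField K] {J : Type} [Fintype J] [DecidableEq J] (𝓛 : LocalData K J)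
variable {ι : Type} [Fintype ι] [DecidableEq ι] (ω : Module.Basis ι ℤ (𝓞 K)) {G : Set (J → 𝓞 K)} {Cb : ℝ}

theorem tail_aux (hG : Thin ω G Cb) (b : ℝ) :
    ∃ C : ℝ, 0 < C ∧ ∃ Z₀ : ℕ, ∀ Z : ℕ, Z₀ ≤ Z → ∀ H : J → ℕ, (∀ j, (Z : ℝ) ^ (C * VZ K Z) ≤ H j) →
      prop ω H G (fun t => b ^ 2 * 𝓛.D * VZ K Z ≤ b * (𝓛.W Z t - 𝓛.m * VZ K Z)) ≤ C * Real.exp (-(b ^ 2 * 𝓛.D / 2 * VZ K Z)) := by
  have hD := 𝓛.D_pos
  have hA := AL_nonneg 𝓛
  obtain ⟨B, hB1, hB⟩ := mod_exp_real 𝓛 |b| (abs_nonneg b)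
  obtain ⟨T, hT, hcard⟩ := card_SZ K (θ := 1) one_pos
  obtain ⟨Z₂, hZ₂⟩ := Filter.eventually_atTop.1 ((VZ_atTop (K := K)).eventually_ge_atTop 1)
  obtain ⟨Z₃, hZ₃⟩ := exists_nat_ge (1 + |b| * (T * AL 𝓛))
  refine ⟨max (24 * B) (8 * (b ^ 2 * 𝓛.D) + 25), lt_max_of_lt_left (by linarith), max (max 1 (2 ^ Fintype.card (J × ι))) (max Z₂ (max Z₃ ⌈Cb⌉₊)),
    fun Z hZ H hH => ?_⟩
  have hZ1 : 1 ≤ Z := ((le_max_left _ _).trans (le_max_left _ _)).trans hZ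
  have hZ2 : 2 ^ Fintype.card (J × ι) ≤ Z := ((le_max_right _ _).trans (le_max_left _ _)).trans hZ
  have hZZ2 : Z₂ ≤ Z := ((le_max_left _ _).trans (le_max_right _ _)).trans hZ
  have hZZ3 : Z₃ ≤ Z := ((le_max_left _ _).trans ((le_max_right _ _).trans (le_max_right _ _))).trans hZ
  have hZZ4 : ⌈Cb⌉₊ ≤ Z := ((le_max_right _ _).trans ((le_max_right _ _).trans (le_max_right _ _))).trans hZ
  have hZ0 : (1 : ℝ) ≤ Z := by exact_mod_cast hZ1
  have hZpos : (0 : ℝ) < Z := by linarith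
  have hCbZ : Cb ≤ Z := (Nat.le_ceil Cb).trans (by exact_mod_cast hZZ4)
  have hV1 := hZ₂ Z hZZ2
  have hb1 := hB Z b le_rfl
  have hb2 := hB Z (-b) (by rw [abs_neg])
  rw [neg_sq] at hb2
  have hcZ := hcard Z hZ1
  obtain ⟨V, hVd⟩ : ∃ V, V = VZ K Z := ⟨_, rfl⟩
  rw [← hVd] at hH hV1 hb1 hb2 ⊢
  obtain ⟨x, hx⟩ : ∃ x, x = b ^ 2 * 𝓛.D * V := ⟨_, rfl⟩
  have hx0 : 0 ≤ x := by rw [hx]; positivity
  have hx2 : b ^ 2 * 𝓛.D / 2 * V = x / 2 := by rw [hx]; ring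
  rw [hx2] at hb1 hb2 ⊢
  rw [← hx]
  obtain ⟨n, hn⟩ : ∃ n, n = ⌈x⌉₊ + 2 := ⟨_, rfl⟩
  have hn1 : x + 2 ≤ n := by
    rw [hn]; push_cast
    have := Nat.le_ceil x
    linarith
  have hn2 : (n : ℝ) ≤ x + 3 := by
    rw [hn]; push_cast
    have := (Nat.ceil_lt_add_one hx0).le
    linarith
  -- the size of the box
  obtain ⟨M, hM⟩ : ∃ M, M = Z ^ (8 * n + 1) := ⟨_, rfl⟩
  have hMH : ∀ j, M ≤ H j := by
    intro j
    have h1 : ((M : ℕ) : ℝ) ≤ (Z : ℝ) ^ (max (24 * B) (8 * (b ^ 2 * 𝓛.D) + 25) * V) := by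
      rw [hM]
      push_cast
      rw [← Real.rpow_natCast]
      refine Real.rpow_le_rpow_of_exponent_le hZ0 ?_
      push_cast
      calc 8 * (n : ℝ) + 1 ≤ 8 * x + 25 := by linarith
        _ ≤ 8 * x + 25 * V := by linarith
        _ = (8 * (b ^ 2 * 𝓛.D) + 25) * V := by rw [hx]; ring
        _ ≤ _ := mul_le_mul_of_nonneg_right (le_max_right _ _) (by linarith)
    exact_mod_cast h1.trans (hH j)
  have hZM : Z ≤ M := by
    rw [hM]
    calc Z = Z ^ 1 := (pow_one Z).symm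
      _ ≤ _ := Nat.pow_le_pow_right hZ1 (by omega)
  have hZMr : (Z : ℝ) ≤ M := by exact_mod_cast hZM
  have hMr : ((M : ℕ) : ℝ) = (Z : ℝ) ^ (8 * n + 1) := by rw [hM]; push_cast; rfl
  have h1 := Q_close ω (XX 𝓛) (SZ K Z) hA (XX_le 𝓛) (n := n) (M := M) hZ1 (fun v hv => mem_SZ.1 hv) H hMH (by
    have h2 : Z ^ (2 * n) ≤ Z ^ (8 * n + 1) := Nat.pow_le_pow_right hZ1 (by omega)
    rw [← hM] at h2
    omega) b
  have herr : (1 + |b| * ((SZ K Z).card * AL 𝓛) / 2) ^ (2 * n) * (2 ^ Fintype.card (J × ι) * ((Z : ℝ) ^ (2 * n) / (2 * M + 1))) ≤ 1 := by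
    have h5 : 1 + |b| * ((SZ K Z).card * AL 𝓛) / 2 ≤ (Z : ℝ) ^ 3 := by
      have e : (Z : ℝ) ^ ((1 : ℝ) + 1) = (Z : ℝ) ^ 2 := by
        rw [← Real.rpow_natCast]; norm_num
      rw [e] at hcZ
      have h6 : (1 : ℝ) ≤ (Z : ℝ) ^ 2 := one_le_pow₀ hZ0
      have h7 : 1 + |b| * (T * AL 𝓛) ≤ Z := by
        have h8 : (Z₃ : ℝ) ≤ Z := by exact_mod_cast hZZ3
        exact hZ₃.trans h8
      have h8 : (0 : ℝ) ≤ |b| * (T * AL 𝓛) := by positivity
      calc 1 + |b| * ((SZ K Z).card * AL 𝓛) / 2 ≤ 1 + |b| * ((T * (Z : ℝ) ^ 2) * AL 𝓛) / 2 := by gcongr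
        _ ≤ (1 + |b| * (T * AL 𝓛)) * (Z : ℝ) ^ 2 := by nlinarith
        _ ≤ Z * (Z : ℝ) ^ 2 := by gcongr
        _ = (Z : ℝ) ^ 3 := by ring
    have h6 : (2 : ℝ) ^ Fintype.card (J × ι) ≤ Z := by exact_mod_cast hZ2
    calc _ ≤ ((Z : ℝ) ^ 3) ^ (2 * n) * (Z * ((Z : ℝ) ^ (2 * n) / (2 * M + 1))) := by gcongr
      _ = (Z : ℝ) ^ (8 * n + 1) / (2 * M + 1) := by
          rw [← pow_mul]
          have e : (Z : ℝ) ^ (8 * n + 1) = (Z : ℝ) ^ (3 * (2 * n)) * (Z * (Z : ℝ) ^ (2 * n)) := by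
            rw [← pow_succ', ← pow_add]
            congr 1
            ring
          rw [e]
          ring
      _ ≤ 1 := by
          rw [← hMr, div_le_one (by positivity)]
          have : (0 : ℝ) ≤ M := by positivity
          linarith
  -- the model
  have h2 : av (Finset.univ : Finset (TS (SZ K Z) J)) (fun t => Qp n (b * SM (XX 𝓛) (SZ K Z) t)) ≤ 2 * B * Real.exp (x / 2) := by
    refine (av_mono _ fun t => Qp_le n (b * SM (XX 𝓛) (SZ K Z) t)).trans ?_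
    rw [av_add]
    simp only [neg_mul] at hb2
    have : 2 * B * Real.exp (x / 2) = B * Real.exp (x / 2) + B * Real.exp (x / 2) := by ring
    rw [this]
    exact add_le_add hb1 hb2
  have hexp1 : 1 ≤ Real.exp (x / 2) := Real.one_le_exp (by linarith)
  have h3 : av (box ι H) (fun c => Qp n (b * SB (XX 𝓛) (SZ K Z) (tuple ω c))) ≤ 3 * B * Real.exp (x / 2) := by
    refine h1.trans ?_
    have : (1 : ℝ) ≤ B * Real.exp (x / 2) := by nlinarith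
    linarith
  have h4 := prop_le ω hG H M hMH (by linarith) (fun t => x ≤ b * (𝓛.W Z t - 𝓛.m * V))
    (fun c => Qp n (b * SB (XX 𝓛) (SZ K Z) (tuple ω c))) (fun c => Qp_nonneg _ _) (w := Real.exp x / 4) (by positivity)
    (fun c hc => by
      have h5 : x ≤ b * SB (XX 𝓛) (SZ K Z) (tuple ω c) := by
        rw [SB_eq, ← hVd]
        exact hc
      exact Qp_ge n hx0 hn1 h5)
  refine h4.trans ?_
  have h5 : av (box ι H) (fun c => Qp n (b * SB (XX 𝓛) (SZ K Z) (tuple ω c))) / (Real.exp x / 4) ≤ 12 * B * Real.exp (-(x / 2)) := by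
    rw [div_le_iff₀ (by positivity)]
    have e : 12 * B * Real.exp (-(x / 2)) * (Real.exp x / 4) = 3 * B * Real.exp (x / 2) := by
      have : Real.exp x = Real.exp (x / 2) * Real.exp (x / 2) := by rw [← Real.exp_add]; ring_nf
      rw [this, Real.exp_neg]
      field_simp
      ring
    rw [e]
    exact h3
  calc 2 * (av (box ι H) (fun c => Qp n (b * SB (XX 𝓛) (SZ K Z) (tuple ω c))) / (Real.exp x / 4)) ≤
      2 * (12 * B * Real.exp (-(x / 2))) := by gcongr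
    _ = 24 * B * Real.exp (-(x / 2)) := by ring
    _ ≤ _ := mul_le_mul_of_nonneg_right (le_max_left _ _) (Real.exp_pos _).le

/-- **Large deviations.** -/
theorem tail (hG : Thin ω G Cb) {a : ℝ} (ha : 0 < a) :
    ∃ C : ℝ, 0 < C ∧ ∃ Z₀ : ℕ, ∀ Z : ℕ, Z₀ ≤ Z → ∀ H : J → ℕ, (∀ j, (Z : ℝ) ^ (C * VZ K Z) ≤ H j) →
      prop ω H G (fun t => a * VZ K Z ≤ |𝓛.W Z t - 𝓛.m * VZ K Z|) ≤ C * Real.exp (-(a ^ 2 / (2 * 𝓛.D) * VZ K Z)) := by
  have hD := 𝓛.D_pos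
  obtain ⟨C₁, hC₁, Z₁, h₁⟩ := tail_aux 𝓛 ω hG (a / 𝓛.D)
  obtain ⟨C₂, hC₂, Z₂, h₂⟩ := tail_aux 𝓛 ω hG (-(a / 𝓛.D))
  refine ⟨C₁ + C₂, by positivity, max (max Z₁ Z₂) 1, fun Z hZ H hH => ?_⟩
  have hZ1 : (1 : ℝ) ≤ Z := by exact_mod_cast (le_max_right _ _).trans hZ
  have hZZ := (le_max_left _ _).trans hZ
  have hV := VZ_nonneg (K := K) Z
  have g1 := h₁ Z ((le_max_left _ _).trans hZZ) H (fun j => le_trans (Real.rpow_le_rpow_of_exponent_le hZ1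
    (mul_le_mul_of_nonneg_right (by linarith) hV)) (hH j))
  have g2 := h₂ Z ((le_max_right _ _).trans hZZ) H (fun j => le_trans (Real.rpow_le_rpow_of_exponent_le hZ1
    (mul_le_mul_of_nonneg_right (by linarith) hV)) (hH j))
  have e1 : (a / 𝓛.D) ^ 2 * 𝓛.D / 2 * VZ K Z = a ^ 2 / (2 * 𝓛.D) * VZ K Z := by field_simp
  have e2 : (-(a / 𝓛.D)) ^ 2 * 𝓛.D / 2 * VZ K Z = a ^ 2 / (2 * 𝓛.D) * VZ K Z := by field_simp
  rw [e1] at g1
  rw [e2] at g2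
  refine (LocalData.prop_mono ω H (Q := fun t => ((a / 𝓛.D) ^ 2 * 𝓛.D * VZ K Z ≤ (a / 𝓛.D) * (𝓛.W Z t - 𝓛.m * VZ K Z)) ∨
    ((-(a / 𝓛.D)) ^ 2 * 𝓛.D * VZ K Z ≤ (-(a / 𝓛.D)) * (𝓛.W Z t - 𝓛.m * VZ K Z))) fun t ht => ?_).trans
    ((LocalData.prop_or ω H _ _).trans ?_)
  · have e3 : (a / 𝓛.D) ^ 2 * 𝓛.D * VZ K Z = (a / 𝓛.D) * (a * VZ K Z) := by field_simp
    have e4 : (-(a / 𝓛.D)) ^ 2 * 𝓛.D * VZ K Z = (a / 𝓛.D) * (a * VZ K Z) := by field_simp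
    have hpos : 0 < a / 𝓛.D := by positivity
    rcases le_abs.1 ht with h | h
    · left
      rw [e3]
      exact mul_le_mul_of_nonneg_left h hpos.le
    · right
      rw [e4]
      have := mul_le_mul_of_nonneg_left h hpos.le
      linarith
  · rw [add_mul]
    exact add_le_add g1 g2

/-- **Large deviations in the full range of powers.** -/
theorem tail_pow (hG : Thin ω G Cb) (k : ℕ) :
    ∃ C : ℕ, ∃ B : ℝ, 0 < B ∧ ∃ Z₀ : ℕ, ∀ Z : ℕ, Z₀ ≤ Z → ∀ H : J → ℕ, (∀ j, Z ^ C ≤ H j) → ∀ a : ℝ, 0 < a →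
      prop ω H G (fun t => a * VZ K Z ≤ |𝓛.W Z t - 𝓛.m * VZ K Z|) ≤ B / (a ^ (2 * k) * VZ K Z ^ k) := by
  have hD := 𝓛.D_pos
  have hA := AL_nonneg 𝓛
  obtain ⟨B, hB1, hB⟩ := mod_even 𝓛
  obtain ⟨T, hT, hcard⟩ := card_SZ K (θ := 1) one_pos
  obtain ⟨Z₂, hZ₂⟩ := Filter.eventually_atTop.1 ((VZ_atTop (K := K)).eventually_ge_atTop 1)
  obtain ⟨Z₃, hZ₃⟩ := exists_nat_ge ((T * AL 𝓛 + 1) ^ (2 * k) * 2 ^ Fintype.card (J × ι))
  refine ⟨6 * k + 1, 2 * ((2 * k).factorial * (2 * B * Real.exp (𝓛.D / 2)) + 1), by positivity,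
    max 1 (max Z₂ (max Z₃ ⌈Cb⌉₊)), fun Z hZ H hH a ha => ?_⟩
  have hZ1 : 1 ≤ Z := (le_max_left _ _).trans hZ
  have hZZ2 : Z₂ ≤ Z := ((le_max_left _ _).trans (le_max_right _ _)).trans hZ
  have hZZ3 : Z₃ ≤ Z := ((le_max_left _ _).trans ((le_max_right _ _).trans (le_max_right _ _))).trans hZ
  have hZZ4 : ⌈Cb⌉₊ ≤ Z := ((le_max_right _ _).trans ((le_max_right _ _).trans (le_max_right _ _))).trans hZ
  have hZ0 : (1 : ℝ) ≤ Z := by exact_mod_cast hZ1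
  have hZpos : (0 : ℝ) < Z := by linarith
  have hCbZ : Cb ≤ Z := (Nat.le_ceil Cb).trans (by exact_mod_cast hZZ4)
  have hV1 := hZ₂ Z hZZ2
  have hcZ := hcard Z hZ1
  have hBk := fun b hb0 hb1 => hB Z k b hb0 hb1
  obtain ⟨V, hVd⟩ : ∃ V, V = VZ K Z := ⟨_, rfl⟩
  rw [← hVd] at hV1 hBk ⊢
  have hV0 : 0 < V := by linarith
  -- the moment of the model
  have h1 : av (Finset.univ : Finset (TS (SZ K Z) J)) (fun t => SM (XX 𝓛) (SZ K Z) t ^ (2 * k)) ≤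
      (2 * k).factorial * V ^ k * (2 * B * Real.exp (𝓛.D / 2)) := by
    have hs : 1 ≤ Real.sqrt V := Real.one_le_sqrt.2 hV1
    have hs2 : Real.sqrt V ^ 2 = V := Real.sq_sqrt hV0.le
    have hb := hBk (1 / Real.sqrt V) (by positivity) (by rw [div_le_one (by linarith)]; exact hs)
    have e1 : (1 / Real.sqrt V) ^ (2 * k) = 1 / V ^ k := by
      rw [pow_mul, div_pow, one_pow, hs2, div_pow, one_pow]
    have e2 : (1 / Real.sqrt V) ^ 2 * 𝓛.D / 2 * V = 𝓛.D / 2 := by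
      rw [div_pow, one_pow, hs2]
      field_simp
    rw [e1, e2] at hb
    refine hb.trans (le_of_eq ?_)
    rw [div_div_eq_mul_div, div_one]
  -- the box
  have hMH : ∀ j, Z ^ (6 * k + 1) ≤ H j := hH
  have hZM : Z ≤ Z ^ (6 * k + 1) := by
    calc Z = Z ^ 1 := (pow_one Z).symm
      _ ≤ _ := Nat.pow_le_pow_right hZ1 (by omega)
  have hZMr : (Z : ℝ) ≤ ((Z ^ (6 * k + 1) : ℕ) : ℝ) := by exact_mod_cast hZM
  have h2 := mom_close ω (XX 𝓛) (SZ K Z) hA (XX_le 𝓛) (N := 2 * k) (M := Z ^ (6 * k + 1)) hZ1 (fun v hv => mem_SZ.1 hv) H hMH (by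
    have h2 : Z ^ (2 * k) ≤ Z ^ (6 * k + 1) := Nat.pow_le_pow_right hZ1 (by omega)
    omega) (i := 2 * k) le_rfl
  have herr : (((SZ K Z).card : ℝ) * AL 𝓛) ^ (2 * k) * (2 ^ Fintype.card (J × ι) *
      ((Z : ℝ) ^ (2 * k) / (2 * ((Z ^ (6 * k + 1) : ℕ) : ℝ) + 1))) ≤ 1 := by
    have h5 : ((SZ K Z).card : ℝ) * AL 𝓛 ≤ (T * AL 𝓛 + 1) * (Z : ℝ) ^ 2 := by
      have e : (Z : ℝ) ^ ((1 : ℝ) + 1) = (Z : ℝ) ^ 2 := by
        rw [← Real.rpow_natCast]; norm_num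
      rw [e] at hcZ
      have : 0 ≤ (Z : ℝ) ^ 2 := by positivity
      calc ((SZ K Z).card : ℝ) * AL 𝓛 ≤ (T * (Z : ℝ) ^ 2) * AL 𝓛 := by gcongr
        _ ≤ _ := by nlinarith
    have h6 : (T * AL 𝓛 + 1) ^ (2 * k) * 2 ^ Fintype.card (J × ι) ≤ Z := hZ₃.trans (by exact_mod_cast hZZ3)
    calc _ ≤ ((T * AL 𝓛 + 1) * (Z : ℝ) ^ 2) ^ (2 * k) * (2 ^ Fintype.card (J × ι) *
          ((Z : ℝ) ^ (2 * k) / (2 * ((Z ^ (6 * k + 1) : ℕ) : ℝ) + 1))) := by gcongr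
      _ = ((T * AL 𝓛 + 1) ^ (2 * k) * 2 ^ Fintype.card (J × ι)) * (Z : ℝ) ^ (6 * k) /
          (2 * ((Z ^ (6 * k + 1) : ℕ) : ℝ) + 1) := by
          have e : (Z : ℝ) ^ (6 * k) = (Z : ℝ) ^ (2 * (2 * k)) * (Z : ℝ) ^ (2 * k) := by rw [← pow_add]; congr 1; ring
          rw [mul_pow, ← pow_mul, e]
          ring
      _ ≤ Z * (Z : ℝ) ^ (6 * k) / (2 * ((Z ^ (6 * k + 1) : ℕ) : ℝ) + 1) := by gcongr
      _ ≤ 1 := by
          have e : (Z : ℝ) * (Z : ℝ) ^ (6 * k) = ((Z ^ (6 * k + 1) : ℕ) : ℝ) := by push_cast; rw [pow_succ]; ring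
          rw [e, div_le_one (by positivity)]
          linarith
  have h3 : av (box ι H) (fun c => SB (XX 𝓛) (SZ K Z) (tuple ω c) ^ (2 * k)) ≤
      ((2 * k).factorial * (2 * B * Real.exp (𝓛.D / 2)) + 1) * V ^ k := by
    have h4 := (abs_le.1 h2).2
    have h5 : 1 ≤ V ^ k := one_le_pow₀ hV1
    nlinarith
  have hw : 0 < (a * V) ^ (2 * k) := by positivity
  have h4 := prop_le ω hG H (Z ^ (6 * k + 1)) hMH (by linarith) (fun t => a * V ≤ |𝓛.W Z t - 𝓛.m * V|)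
    (fun c => SB (XX 𝓛) (SZ K Z) (tuple ω c) ^ (2 * k)) (fun c => by rw [pow_mul]; positivity) (w := (a * V) ^ (2 * k)) hw
    (fun c hc => by
      rw [SB_eq, ← hVd]
      have e : (𝓛.W Z (tuple ω c) - 𝓛.m * V) ^ (2 * k) = |𝓛.W Z (tuple ω c) - 𝓛.m * V| ^ (2 * k) := by
        rw [pow_mul, pow_mul, sq_abs]
      rw [e]
      exact pow_le_pow_left₀ (by positivity) hc _)
  refine h4.trans ?_
  have e : a ^ (2 * k) * V ^ k = (a * V) ^ (2 * k) / V ^ k := by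
    rw [mul_pow, eq_div_iff (by positivity), mul_assoc, ← pow_add]
    congr 2
    ring
  rw [e, mul_div_assoc]
  refine mul_le_mul_of_nonneg_left ?_ (by norm_num)
  rw [div_div_eq_mul_div]
  exact div_le_div_of_nonneg_right h3 hw.le

end

end Run7.h876.PW
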