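import Pool.Agent.Run7.h876.PW.Gen
import Pool.Agent.Q282.BP.Max

/-!
# All bounds at once: the moments of the increments
-/

set_option autoImplicit false
set_option linter.unusedSectionVars false

namespace Run7.h876.PW.Al

open NumberField IsDedekindDomain Finset Filter Topology MeasureTheory
open Run7.h876.MM (nv kv two_le_nv nv_pos avg norm_avg_le SZ mem_SZ card_SZ instFieldKv instFintypeKv instDecKv)
open Run7.h876.EN Run7.h876.PW
open Run7.h9.BS (cv cv_pos cv_le prop VZ VZ_nonneg VZ_atTop)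

/-- The exponential moment of a centred bounded function. -/
theorem exp_centred {Ω : Type*} [Fintype Ω] [Nonempty Ω] (f : Ω → ℝ) {c : ℝ} (hc : 0 < c) (hf : ∀ t, |f t| ≤ c)
    (h0 : av Finset.univ f = 0) (b : ℝ) : av Finset.univ (fun t => Real.exp (b * f t)) ≤ Real.exp (b ^ 2 * c ^ 2 / 2) := by
  have h1 : ∀ t, Real.exp (b * f t) ≤ Real.cosh (b * c) + Real.sinh (b * c) / c * f t := by
    intro t
    obtain ⟨h2, h3⟩ := abs_le.1 (hf t)
    have hce := convexOn_exp
    have h4 := hce.2 (Set.mem_univ (b * c)) (Set.mem_univ (-(b * c)))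
      (show 0 ≤ (c + f t) / (2 * c) from div_nonneg (by linarith) (by linarith))
      (show 0 ≤ (c - f t) / (2 * c) from div_nonneg (by linarith) (by linarith)) (by field_simp; ring)
    simp only [smul_eq_mul] at h4
    have e1 : (c + f t) / (2 * c) * (b * c) + (c - f t) / (2 * c) * (-(b * c)) = b * f t := by
      field_simp
      ring
    rw [e1] at h4
    refine h4.trans (le_of_eq ?_)
    rw [Real.cosh_eq, Real.sinh_eq]
    field_simp
    ring
  refine (av_mono _ h1).trans ?_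
  rw [av_add, av_mul, h0, mul_zero, add_zero]
  have h2 : av Finset.univ (fun _ : Ω => Real.cosh (b * c)) = Real.cosh (b * c) := by
    unfold av
    rw [Finset.sum_const, nsmul_eq_mul, mul_comm, mul_div_assoc, div_self, mul_one]
    rw [Finset.card_univ]
    exact_mod_cast Fintype.card_pos.ne'
  rw [h2]
  refine (Real.cosh_le_exp_half_sq _).trans (le_of_eq ?_)
  congr 1
  ring

section
variable {K : Type} [Field K] [NumberField K] {J : Type} [Fintype J] [DecidableEq J]
variable {ι : Type} [Fintype ι] [DecidableEq ι] (ω : Module.Basis ι ℤ (𝓞 K))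
variable (X : ∀ v : HeightOneSpectrum (𝓞 K), (J → kv v) → ℝ)

/-- The exponential moments of the sums of the independent variables. -/
theorem exp_SM_le {A : ℝ} (hA : 0 < A) (hX : ∀ v t, |X v t| ≤ A / Real.sqrt (nv v)) (h0 : ∀ v, av Finset.univ (X v) = 0)
    (F : Finset (HeightOneSpectrum (𝓞 K))) (b : ℝ) :
    av (Finset.univ : Finset (TS F J)) (fun t => Real.exp (b * SM X F t)) ≤ Real.exp (b ^ 2 * (A ^ 2 * ∑ v ∈ F, cv v) / 2) := by
  have h1 : ((av (Finset.univ : Finset (TS F J)) (fun t => Real.exp (b * SM X F t)) : ℝ) : ℂ) =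
      ((∏ v ∈ F, av Finset.univ (fun t => Real.exp (b * X v t)) : ℝ) : ℂ) := by
    rw [← avg_av]
    push_cast
    rw [exp_SM]
    refine Finset.prod_congr rfl fun v _ => ?_
    rw [← avg_av]
    congr 1
    funext t
    push_cast
    rfl
  have h2 := Complex.ofReal_injective h1
  rw [h2]
  calc ∏ v ∈ F, av Finset.univ (fun t => Real.exp (b * X v t)) ≤ ∏ v ∈ F, Real.exp (b ^ 2 * (A ^ 2 * cv v) / 2) := by
        refine Finset.prod_le_prod (fun v _ => av_nonneg _ fun t => (Real.exp_pos _).le) fun v _ => ?_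
        have hq := nv_pos v
        refine (exp_centred (X v) (c := A / Real.sqrt (nv v)) (by positivity) (hX v) (h0 v) b).trans (Real.exp_le_exp.2 ?_)
        rw [div_pow, Real.sq_sqrt hq.le]
        have h3 : A ^ 2 / nv v ≤ A ^ 2 * cv v := by
          rw [div_eq_mul_one_div]
          refine mul_le_mul_of_nonneg_left ?_ (by positivity)
          unfold cv
          have h4 := Real.log_le_sub_one_of_pos (x := 1 - 1 / (nv v : ℝ)) (by
            have h5 : (2 : ℝ) ≤ nv v := by exact_mod_cast two_le_nv v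
            have : 1 / (nv v : ℝ) ≤ 1 / 2 := one_div_le_one_div_of_le (by norm_num) h5
            linarith)
          linarith
        have h4 : 0 ≤ b ^ 2 := by positivity
        nlinarith
    _ = Real.exp (b ^ 2 * (A ^ 2 * ∑ v ∈ F, cv v) / 2) := by
        rw [← Real.exp_sum]
        congr 1
        rw [Finset.mul_sum, Finset.mul_sum, Finset.sum_div]

/-- The even moments of the sums of the independent variables. -/
theorem even_SM_le {A : ℝ} (hA : 0 < A) (hX : ∀ v t, |X v t| ≤ A / Real.sqrt (nv v)) (h0 : ∀ v, av Finset.univ (X v) = 0)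
    (F : Finset (HeightOneSpectrum (𝓞 K))) (k : ℕ) (hk : 1 ≤ k) :
    av (Finset.univ : Finset (TS F J)) (fun t => SM X F t ^ (2 * k)) ≤
      (2 * k).factorial * (2 * Real.exp (1 / 2)) * (A ^ 2 * ∑ v ∈ F, cv v) ^ k := by
  classical
  rcases F.eq_empty_or_nonempty with hF | hF
  · subst hF
    have : (fun t : TS (∅ : Finset (HeightOneSpectrum (𝓞 K))) J => SM X ∅ t ^ (2 * k)) = fun _ => 0 := by
      funext t
      have : SM X ∅ t = 0 := by
        unfold SM
        exact Finset.sum_of_isEmpty _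
      rw [this, zero_pow (by omega)]
    rw [this]
    have e : av (Finset.univ : Finset (TS (∅ : Finset (HeightOneSpectrum (𝓞 K))) J)) (fun _ => (0 : ℝ)) = 0 := by
      unfold av; simp
    rw [e]
    positivity
  obtain ⟨g, hg⟩ : ∃ g : ℝ, g = A ^ 2 * ∑ v ∈ F, cv v := ⟨_, rfl⟩
  have hg0 : 0 < g := by
    rw [hg]
    have := Finset.sum_pos (fun v (_ : v ∈ F) => cv_pos v) hF
    positivity
  rw [← hg]
  have hs : 0 < Real.sqrt g := Real.sqrt_pos.2 hg0
  have hs2 : Real.sqrt g ^ 2 = g := Real.sq_sqrt hg0.le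
  obtain ⟨b, hb⟩ : ∃ b : ℝ, b = 1 / Real.sqrt g := ⟨_, rfl⟩
  have hb0 : 0 < b := by rw [hb]; positivity
  have h1 := exp_SM_le X hA hX h0 F b
  have h2 := exp_SM_le X hA hX h0 F (-b)
  have e1 : b ^ 2 * g = 1 := by rw [hb, div_pow, one_pow, hs2]; field_simp
  rw [neg_sq] at h2
  rw [← hg, e1] at h1 h2
  have hfac : (0 : ℝ) < (2 * k).factorial := by exact_mod_cast Nat.factorial_pos _
  have h3 : ∀ t : TS F J, SM X F t ^ (2 * k) ≤ (2 * k).factorial / b ^ (2 * k) *
      (Real.exp (b * SM X F t) + Real.exp (-b * SM X F t)) := by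
    intro t
    obtain ⟨y, hy⟩ : ∃ y, y = SM X F t := ⟨_, rfl⟩
    rw [← hy]
    have h4 := Real.pow_div_factorial_le_exp |b * y| (abs_nonneg _) (2 * k)
    have h5 : |b * y| ^ (2 * k) = b ^ (2 * k) * y ^ (2 * k) := by
      rw [← mul_pow, pow_mul, sq_abs, ← pow_mul]
    have h6 : Real.exp |b * y| ≤ Real.exp (b * y) + Real.exp (-b * y) := by
      rcases abs_cases (b * y) with ⟨h, _⟩ | ⟨h, _⟩ <;> rw [h]
      · have := Real.exp_pos (-b * y); linarith
      · rw [← neg_mul]; have := Real.exp_pos (b * y); linarith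
    rw [h5, div_le_iff₀ hfac] at h4
    have hbk : 0 < b ^ (2 * k) := by positivity
    calc y ^ (2 * k) = b ^ (2 * k) * y ^ (2 * k) / b ^ (2 * k) := by field_simp
      _ ≤ (Real.exp |b * y| * (2 * k).factorial) / b ^ (2 * k) := div_le_div_of_nonneg_right h4 hbk.le
      _ ≤ ((Real.exp (b * y) + Real.exp (-b * y)) * (2 * k).factorial) / b ^ (2 * k) := by gcongr
      _ = _ := by ring
  refine (av_mono _ h3).trans ?_
  rw [av_mul, av_add]
  have e2 : 1 / b ^ (2 * k) = g ^ k := by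
    rw [hb, div_pow, one_pow, one_div_one_div, pow_mul, hs2]
  calc (2 * k).factorial / b ^ (2 * k) * _ ≤ (2 * k).factorial / b ^ (2 * k) * (Real.exp (1 / 2) + Real.exp (1 / 2)) :=
        mul_le_mul_of_nonneg_left (add_le_add h1 h2) (by positivity)
    _ = (2 * k).factorial * (2 * Real.exp (1 / 2)) * (1 / b ^ (2 * k)) := by ring
    _ = _ := by rw [e2]

/-- **The moments of the increments over the box.** -/
theorem box_incr {A : ℝ} (hA : 0 < A) (hX : ∀ v t, |X v t| ≤ A / Real.sqrt (nv v)) (h0 : ∀ v, av Finset.univ (X v) = 0)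
    (k : ℕ) (hk : 1 ≤ k) : ∃ C : ℝ, 0 < C ∧ ∀ N : ℕ, 1 ≤ N → ∀ H : J → ℕ, (∀ j, N ^ (7 * k) ≤ H j) → ∀ a b : ℕ, a ≤ b → b ≤ N →
      av (box ι H) (fun c => (SB X (SZ K b) (tuple ω c) - SB X (SZ K a) (tuple ω c)) ^ (2 * k)) ≤
        C * (VZ K b - VZ K a) ^ k := by
  classical
  obtain ⟨T, hT, hcard⟩ := card_SZ K (θ := 1) one_pos
  refine ⟨(2 * k).factorial * (2 * Real.exp (1 / 2)) * (A ^ 2) ^ k + (T * A) ^ (2 * k) * 2 ^ Fintype.card (J × ι), by positivity,
    fun N hN H hH a b hab hbN => ?_⟩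
  obtain ⟨F, hF⟩ : ∃ F, F = SZ K b \ SZ K a := ⟨_, rfl⟩
  have hsub : SZ K a ⊆ SZ K b := fun v hv => mem_SZ.2 ((mem_SZ.1 hv).trans hab)
  have e1 : ∀ t, SB X (SZ K b) t - SB X (SZ K a) t = SB X F t := by
    intro t
    unfold SB
    rw [hF, ← Finset.sum_sdiff hsub]
    ring
  have e2 : VZ K b - VZ K a = ∑ v ∈ F, cv v := by
    unfold VZ
    rw [hF, ← Finset.sum_sdiff hsub]
    ring
  simp only [e1]
  rw [e2]
  rcases F.eq_empty_or_nonempty with hFe | hFn
  · have : (fun c : J × ι → ℤ => SB X F (tuple ω c) ^ (2 * k)) = fun _ => 0 := by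
      funext c
      unfold SB
      rw [hFe, Finset.sum_empty, zero_pow (by omega)]
    rw [this, hFe, Finset.sum_empty, zero_pow (by omega), mul_zero]
    unfold av
    simp
  have hFN : ∀ v ∈ F, nv v ≤ N := fun v hv => by
    rw [hF, Finset.mem_sdiff] at hv
    exact (mem_SZ.1 hv.1).trans hbN
  have hN0 : (1 : ℝ) ≤ N := by exact_mod_cast hN
  have hNpos : (0 : ℝ) < N := by linarith
  have hXA : ∀ v t, |X v t| ≤ A := fun v t => (hX v t).trans (by
    rw [div_le_iff₀ (Real.sqrt_pos.2 (nv_pos v))]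
    have : 1 ≤ Real.sqrt (nv v) := Real.one_le_sqrt.2 (by exact_mod_cast (by have := two_le_nv v; omega : 1 ≤ nv v))
    nlinarith)
  have h2 := mom_close ω X F hA.le hXA (N := 2 * k) (M := N ^ (7 * k)) hN hFN H hH (by
    have h2 : N ^ (2 * k) ≤ N ^ (7 * k) := Nat.pow_le_pow_right hN (by omega)
    omega) (i := 2 * k) le_rfl
  have h3 := even_SM_le X hA hX h0 F k hk
  obtain ⟨V, hV⟩ : ∃ V, V = ∑ v ∈ F, cv v := ⟨_, rfl⟩
  rw [← hV] at h3 ⊢
  have hVN : 1 / (N : ℝ) ≤ V := by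
    obtain ⟨v, hv⟩ := hFn
    have h4 : cv v ≤ V := by
      rw [hV]
      exact Finset.single_le_sum (f := fun v => cv v) (fun w _ => (cv_pos w).le) hv
    have h5 : 1 / (nv v : ℝ) ≤ cv v := by
      unfold cv
      have h4 := Real.log_le_sub_one_of_pos (x := 1 - 1 / (nv v : ℝ)) (by
        have h5 : (2 : ℝ) ≤ nv v := by exact_mod_cast two_le_nv v
        have : 1 / (nv v : ℝ) ≤ 1 / 2 := one_div_le_one_div_of_le (by norm_num) h5
        linarith)
      linarith
    have h6 : 1 / (N : ℝ) ≤ 1 / nv v := one_div_le_one_div_of_le (nv_pos v) (by exact_mod_cast hFN v hv)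
    linarith
  have hV0 : 0 < V := lt_of_lt_of_le (by positivity) hVN
  have hc : (F.card : ℝ) ≤ T * (N : ℝ) ^ 2 := by
    have h4 := hcard N hN
    have e : (N : ℝ) ^ ((1 : ℝ) + 1) = (N : ℝ) ^ 2 := by
      rw [← Real.rpow_natCast]; norm_num
    rw [e] at h4
    refine le_trans ?_ h4
    exact_mod_cast Finset.card_le_card fun v hv => mem_SZ.2 (hFN v hv)
  have herr : ((F.card : ℝ) * A) ^ (2 * k) * (2 ^ Fintype.card (J × ι) * ((N : ℝ) ^ (2 * k) / (2 * ((N ^ (7 * k) : ℕ) : ℝ) + 1))) ≤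
      (T * A) ^ (2 * k) * 2 ^ Fintype.card (J × ι) * V ^ k := by
    have h4 : (N : ℝ) ^ (6 * k) / (2 * ((N ^ (7 * k) : ℕ) : ℝ) + 1) ≤ V ^ k := by
      calc (N : ℝ) ^ (6 * k) / (2 * ((N ^ (7 * k) : ℕ) : ℝ) + 1) ≤ (N : ℝ) ^ (6 * k) / (N : ℝ) ^ (7 * k) := by
            refine div_le_div_of_nonneg_left (by positivity) (by positivity) ?_
            push_cast
            have : (0 : ℝ) ≤ (N : ℝ) ^ (7 * k) := by positivity
            linarith
        _ = (1 / (N : ℝ)) ^ k := by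
            have e : (N : ℝ) ^ (7 * k) = (N : ℝ) ^ (6 * k) * (N : ℝ) ^ k := by rw [← pow_add]; congr 1; ring
            rw [e, div_pow, one_pow]
            field_simp
        _ ≤ V ^ k := pow_le_pow_left₀ (by positivity) hVN k
    calc _ ≤ ((T * (N : ℝ) ^ 2) * A) ^ (2 * k) * (2 ^ Fintype.card (J × ι) *
          ((N : ℝ) ^ (2 * k) / (2 * ((N ^ (7 * k) : ℕ) : ℝ) + 1))) := by gcongr
      _ = (T * A) ^ (2 * k) * 2 ^ Fintype.card (J × ι) * ((N : ℝ) ^ (6 * k) / (2 * ((N ^ (7 * k) : ℕ) : ℝ) + 1)) := by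
          have e : (N : ℝ) ^ (6 * k) = (N : ℝ) ^ (2 * (2 * k)) * (N : ℝ) ^ (2 * k) := by rw [← pow_add]; congr 1; ring
          have e' : ((T * (N : ℝ) ^ 2) * A) ^ (2 * k) = (T * A) ^ (2 * k) * (N : ℝ) ^ (2 * (2 * k)) := by
            rw [pow_mul (N : ℝ) 2 (2 * k), ← mul_pow]
            congr 1
            ring
          rw [e, e']
          ring
      _ ≤ _ := mul_le_mul_of_nonneg_left h4 (by positivity)
  have h5 := (abs_le.1 h2).2
  rw [mul_pow (A ^ 2) V k] at h3
  rw [add_mul]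
  have h6 : (2 * k).factorial * (2 * Real.exp (1 / 2)) * ((A ^ 2) ^ k * V ^ k) =
    (2 * k).factorial * (2 * Real.exp (1 / 2)) * (A ^ 2) ^ k * V ^ k := by ring
  rw [h6] at h3
  linarith

end

end Run7.h876.PW.Al
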