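import Pool.Agent.Run7.h876.PW.AllA

/-!
# All bounds at once
-/

set_option autoImplicit false
set_option linter.unusedSectionVars false

namespace Run7.h876.PW.Al

open NumberField IsDedekindDomain Finset Filter Topology MeasureTheory
open Run7.h876.MM (nv kv two_le_nv nv_pos avg norm_avg_le SZ mem_SZ card_SZ instFieldKv instFintypeKv instDecKv)
open Run7.h876.EN Run7.h876.PW
open Run7.h9.BS (cv cv_pos cv_le prop VZ VZ_nonneg VZ_atTop)
open Run7.h9.BS.LocalData (prop_mono)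
open Q282.BP (cmx maximal_card)

theorem VZ_mono {K : Type} [Field K] [NumberField K] : Monotone (VZ K) := by
  intro a b hab
  unfold VZ
  exact Finset.sum_le_sum_of_subset_of_nonneg (fun v hv => mem_SZ.2 ((mem_SZ.1 hv).trans hab)) fun v _ _ => (cv_pos v).le

theorem SZ_zero {K : Type} [Field K] [NumberField K] : SZ K 0 = ∅ := by
  refine Finset.eq_empty_of_forall_notMem fun v hv => ?_
  have h1 := mem_SZ.1 hv
  have h2 := two_le_nv v
  omega

theorem exists_top {J : Type} [Fintype J] [Nonempty J] (H : J → ℕ) {C : ℕ} (hC : 1 ≤ C) {Z₀ : ℕ} (h : ∀ j, Z₀ ^ C ≤ H j) :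
    ∃ N : ℕ, Z₀ ≤ N ∧ (∀ j, N ^ C ≤ H j) ∧ ∀ Z : ℕ, (∀ j, Z ^ C ≤ H j) → Z ≤ N := by
  classical
  obtain ⟨j₀⟩ := (inferInstance : Nonempty J)
  have hle : ∀ Z : ℕ, (∀ j, Z ^ C ≤ H j) → Z ≤ H j₀ := fun Z hZ => (Nat.le_self_pow (by omega) Z).trans (hZ j₀)
  refine ⟨Nat.findGreatest (fun Z => ∀ j, Z ^ C ≤ H j) (H j₀), Nat.le_findGreatest (hle Z₀ h) h,
    Nat.findGreatest_spec (P := fun Z => ∀ j, Z ^ C ≤ H j) (hle Z₀ h) h, fun Z hZ => Nat.le_findGreatest (hle Z hZ) hZ⟩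

section
variable {K : Type} [Field K] [NumberField K] {J : Type} [Fintype J] [DecidableEq J] [Nonempty J]
variable {ι : Type} [Fintype ι] [DecidableEq ι] (ω : Module.Basis ι ℤ (𝓞 K)) {G : Set (J → 𝓞 K)} {Cb : ℝ}
variable (X : ∀ v : HeightOneSpectrum (𝓞 K), (J → kv v) → ℝ)

theorem pow_calc {x δ : ℝ} (hx : 0 < x) (k : ℕ) : (2 * x) ^ k / (x ^ (1 / 2 + δ)) ^ (2 * k) = 2 ^ k * x ^ (-(2 * δ * k)) := by
  have e1 : (x ^ (1 / 2 + δ)) ^ (2 * k) = x ^ k * x ^ (2 * δ * k) := by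
    rw [← Real.rpow_natCast, ← Real.rpow_mul hx.le, ← Real.rpow_natCast x k, ← Real.rpow_add hx]
    congr 1
    push_cast
    ring
  rw [e1, mul_pow, Real.rpow_neg hx.le]
  have h1 : 0 < x ^ k := by positivity
  have h2 : 0 < x ^ (2 * δ * k) := by positivity
  field_simp

/-- **All bounds at once, for centred functions.** -/
theorem centred_all (hG : Thin ω G Cb) {A : ℝ} (hA : 0 < A) (hX : ∀ v t, |X v t| ≤ A / Real.sqrt (nv v))
    (h0 : ∀ v, av Finset.univ (X v) = 0) {δ a : ℝ} (hδ : 0 < δ) (ha : 0 < a) :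
    ∃ C : ℕ, ∃ B : ℝ, 0 < B ∧ ∃ Z₁ : ℕ, ∀ Z₀ : ℕ, Z₁ ≤ Z₀ → ∀ H : J → ℕ,
      prop ω H G (fun t => ∃ Z : ℕ, Z₀ ≤ Z ∧ (∀ j, Z ^ C ≤ H j) ∧ VZ K Z ^ (1 / 2 + δ) < |SB X (SZ K Z) t|) ≤
        B * VZ K Z₀ ^ (-a) := by
  classical
  obtain ⟨k, hk⟩ : ∃ k : ℕ, k = max 2 ⌈a / (2 * δ)⌉₊ := ⟨_, rfl⟩
  have hk2 : 2 ≤ k := hk ▸ le_max_left _ _
  have hka : a ≤ 2 * δ * k := by
    have h1 : a / (2 * δ) ≤ k := (Nat.le_ceil _).trans (by exact_mod_cast hk ▸ le_max_right _ _)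
    rw [div_le_iff₀ (by positivity)] at h1
    linarith
  obtain ⟨C₁, hC₁, hinc⟩ := box_incr (ι := ι) ω X hA hX h0 k (by omega)
  obtain ⟨r, hr⟩ : ∃ r : ℝ, r = (2 : ℝ) ^ (-(2 * δ * k)) := ⟨_, rfl⟩
  have hk0 : (0 : ℝ) < k := by exact_mod_cast (by omega : 0 < k)
  have hr0 : 0 < r := by rw [hr]; positivity
  have hr1 : r < 1 := by
    rw [hr]
    exact Real.rpow_lt_one_of_one_lt_of_neg (by norm_num) (by
      have : 0 < 2 * δ * k := by positivity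
      linarith)
  have hcmx : 0 ≤ cmx k := by unfold cmx; positivity
  obtain ⟨B, hB⟩ : ∃ B : ℝ, B = 2 * (cmx k * C₁ * 2 ^ k / (1 - r)) + 1 := ⟨_, rfl⟩
  have hB1 : 0 ≤ cmx k * C₁ * 2 ^ k / (1 - r) := div_nonneg (by positivity) (by linarith)
  obtain ⟨Z₂, hZ₂⟩ := Filter.eventually_atTop.1 ((VZ_atTop (K := K)).eventually_ge_atTop 1)
  refine ⟨7 * k, B, by rw [hB]; linarith, max 1 (max Z₂ ⌈Cb⌉₊), fun Z₀ hZ₀ H => ?_⟩
  have hV₀ : 1 ≤ VZ K Z₀ := hZ₂ Z₀ (((le_max_left _ _).trans (le_max_right _ _)).trans hZ₀)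
  have hZ01 : 1 ≤ Z₀ := (le_max_left _ _).trans hZ₀
  have hCbZ : ⌈Cb⌉₊ ≤ Z₀ := ((le_max_right _ _).trans (le_max_right _ _)).trans hZ₀
  obtain ⟨V₀, hV⟩ : ∃ V, V = VZ K Z₀ := ⟨_, rfl⟩
  rw [← hV] at hV₀ ⊢
  have hV0 : 0 < V₀ := by linarith
  have hVa : 0 < V₀ ^ (-a) := Real.rpow_pos_of_pos hV0 _
  by_cases hex : ∀ j, Z₀ ^ (7 * k) ≤ H j
  swap
  · have h1 : prop ω H G (fun t => ∃ Z : ℕ, Z₀ ≤ Z ∧ (∀ j, Z ^ (7 * k) ≤ H j) ∧ VZ K Z ^ (1 / 2 + δ) < |SB X (SZ K Z) t|) ≤ 0 := by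
      unfold prop
      rw [Finset.card_eq_zero.2 (Finset.filter_eq_empty_iff.2 fun c _ hc => by
        obtain ⟨_, Z, hZ, hZH, _⟩ := hc
        exact hex fun j => (Nat.pow_le_pow_left hZ _).trans (hZH j))]
      simp
    exact h1.trans (by rw [hB]; positivity)
  obtain ⟨N, hN0, hNH, hNmax⟩ := exists_top H (C := 7 * k) (by omega) hex
  have hN1 : 1 ≤ N := hZ01.trans hN0
  have hbpos : (0 : ℝ) < (box ι H).card := by exact_mod_cast card_box_pos H
  -- the events of the blocks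
  obtain ⟨Q, hQ⟩ : ∃ Q : ℕ → (J → 𝓞 K) → Prop, Q = fun i t => ∃ Z : ℕ, Z ≤ N ∧ 2 ^ i * V₀ ≤ VZ K Z ∧ VZ K Z ≤ 2 ^ (i + 1) * V₀ ∧
    VZ K Z ^ (1 / 2 + δ) < |SB X (SZ K Z) t| := ⟨_, rfl⟩
  have hblock : ∀ i : ℕ, (((box ι H).filter fun c => Q i (tuple ω c)).card : ℝ) / (box ι H).card ≤
      cmx k * C₁ * 2 ^ k * V₀ ^ (-a) * r ^ i := by
    intro i
    obtain ⟨x, hx⟩ : ∃ x : ℝ, x = 2 ^ i * V₀ := ⟨_, rfl⟩
    have hx0 : 0 < x := by rw [hx]; positivity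
    have hx1 : 0 < x ^ (1 / 2 + δ) := by positivity
    obtain ⟨b, hb⟩ : ∃ b : ℕ, b = Nat.findGreatest (fun Z => VZ K Z ≤ 2 * x) N := ⟨_, rfl⟩
    have hbN : b ≤ N := by rw [hb]; exact Nat.findGreatest_le N
    have hVb : VZ K b ≤ 2 * x := by
      rw [hb]
      exact Nat.findGreatest_spec (P := fun Z => VZ K Z ≤ 2 * x) (Nat.zero_le N) (by
        show VZ K 0 ≤ 2 * x
        have : VZ K 0 = 0 := by unfold VZ; rw [SZ_zero, Finset.sum_empty]
        rw [this]; positivity)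
    have hVZ0 : VZ K 0 = 0 := by unfold VZ; rw [SZ_zero, Finset.sum_empty]
    have h1 := maximal_card (box ι H) (fun Z c => SB X (SZ K Z) (tuple ω c)) (VZ K) VZ_mono k hk2 ((box ι H).card * C₁)
      (by positivity) N (fun a b hab hbN => by
        have h2 := hinc N hN1 H hNH a b hab hbN
        unfold av at h2
        rw [div_le_iff₀ hbpos] at h2
        refine h2.trans (le_of_eq ?_)
        ring) b hbN (x ^ (1 / 2 + δ)) hx1 ((box ι H).filter fun c => Q i (tuple ω c)) (Finset.filter_subset _ _) (by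
        intro c hc
        have h2 := (Finset.mem_filter.1 hc).2
        rw [hQ] at h2
        obtain ⟨Z, hZN, h3, h4, h5⟩ := h2
        refine ⟨Z, ?_, ?_⟩
        · rw [hb]
          refine Nat.le_findGreatest hZN ?_
          rw [hx]
          refine h4.trans (le_of_eq ?_)
          ring
        · have e : SB X (SZ K 0) (tuple ω c) = 0 := by
            unfold SB
            rw [SZ_zero, Finset.sum_empty]
          show x ^ (1 / 2 + δ) < |SB X (SZ K Z) (tuple ω c) - SB X (SZ K 0) (tuple ω c)|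
          rw [e, sub_zero]
          refine lt_of_le_of_lt ?_ h5
          exact Real.rpow_le_rpow hx0.le (by rw [hx]; exact h3) (by positivity))
    rw [hVZ0, sub_zero] at h1
    have h2 : (VZ K b) ^ k ≤ (2 * x) ^ k := pow_le_pow_left₀ (VZ_nonneg b) hVb k
    have h3 : x ^ (-(2 * δ * k)) ≤ V₀ ^ (-a) * r ^ i := by
      have e1 : x ^ (-(2 * δ * k)) = V₀ ^ (-(2 * δ * k)) * r ^ i := by
        rw [hx, hr, Real.mul_rpow (by positivity) hV0.le, mul_comm]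
        congr 1
        rw [← Real.rpow_natCast 2 i, ← Real.rpow_mul (by norm_num), ← Real.rpow_natCast _ i, ← Real.rpow_mul (by norm_num)]
        congr 1
        ring
      rw [e1]
      refine mul_le_mul_of_nonneg_right ?_ (by positivity)
      exact Real.rpow_le_rpow_of_exponent_le hV₀ (by linarith)
    rw [div_le_iff₀ hbpos]
    refine h1.trans ?_
    calc cmx k * ((box ι H).card * C₁) * VZ K b ^ k / (x ^ (1 / 2 + δ)) ^ (2 * k) ≤
        cmx k * ((box ι H).card * C₁) * (2 * x) ^ k / (x ^ (1 / 2 + δ)) ^ (2 * k) := by gcongr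
      _ = cmx k * ((box ι H).card * C₁) * ((2 * x) ^ k / (x ^ (1 / 2 + δ)) ^ (2 * k)) := by ring
      _ = cmx k * ((box ι H).card * C₁) * (2 ^ k * x ^ (-(2 * δ * k))) := by rw [pow_calc hx0]
      _ ≤ cmx k * ((box ι H).card * C₁) * (2 ^ k * (V₀ ^ (-a) * r ^ i)) := by gcongr
      _ = _ := by ring
  -- the union of the blocks
  obtain ⟨I, hI⟩ := pow_unbounded_of_one_lt (VZ K N / V₀) (one_lt_two (α := ℝ))
  have h1 := prop_le ω hG H (N ^ (7 * k)) hNH (by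
    have h2 : Cb ≤ Z₀ := (Nat.le_ceil Cb).trans (by exact_mod_cast hCbZ)
    have h3 : (Z₀ : ℝ) ≤ ((N ^ (7 * k) : ℕ) : ℝ) := by
      exact_mod_cast hN0.trans (Nat.le_self_pow (by omega) N)
    linarith)
    (fun t => ∃ Z : ℕ, Z₀ ≤ Z ∧ (∀ j, Z ^ (7 * k) ≤ H j) ∧ VZ K Z ^ (1 / 2 + δ) < |SB X (SZ K Z) t|)
    (fun c => ∑ i ∈ range I, if Q i (tuple ω c) then (1 : ℝ) else 0)
    (fun c => Finset.sum_nonneg fun i _ => by split_ifs <;> norm_num) (w := 1) one_pos (by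
      intro c hc
      obtain ⟨Z, hZ, hZH, hb⟩ := hc
      have hZN := hNmax Z hZH
      have hVZ : V₀ ≤ VZ K Z := by rw [hV]; exact VZ_mono hZ
      obtain ⟨i, hi1, hi2⟩ := exists_nat_pow_near (x := VZ K Z / V₀) (y := 2) (by rw [one_le_div hV0]; exact hVZ) one_lt_two
      have hiI : i < I := by
        by_contra hcon
        rw [not_lt] at hcon
        have h3 : (2 : ℝ) ^ I ≤ 2 ^ i := pow_le_pow_right₀ one_le_two hcon
        have h4 : VZ K Z / V₀ ≤ VZ K N / V₀ := div_le_div_of_nonneg_right (VZ_mono hZN) hV0.le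
        linarith
      have hQi : Q i (tuple ω c) := by
        rw [hQ]
        rw [le_div_iff₀ hV0] at hi1
        rw [div_lt_iff₀ hV0] at hi2
        exact ⟨Z, hZN, hi1, hi2.le, hb⟩
      calc (1 : ℝ) = if Q i (tuple ω c) then (1 : ℝ) else 0 := by rw [if_pos hQi]
        _ ≤ _ := Finset.single_le_sum (f := fun i => if Q i (tuple ω c) then (1 : ℝ) else 0)
          (fun i _ => by split_ifs <;> norm_num) (Finset.mem_range.2 hiI))
  refine h1.trans ?_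
  rw [div_one, av_sum]
  have h2 : ∑ i ∈ range I, av (box ι H) (fun c => if Q i (tuple ω c) then (1 : ℝ) else 0) ≤
      ∑ i ∈ range I, cmx k * C₁ * 2 ^ k * V₀ ^ (-a) * r ^ i := by
    refine Finset.sum_le_sum fun i _ => ?_
    refine le_trans (le_of_eq ?_) (hblock i)
    unfold av
    rw [Finset.sum_ite, Finset.sum_const_zero, add_zero, Finset.sum_const, nsmul_eq_mul, mul_one]
  have h3 : ∑ i ∈ range I, cmx k * C₁ * 2 ^ k * V₀ ^ (-a) * r ^ i ≤ cmx k * C₁ * 2 ^ k * V₀ ^ (-a) * (1 / (1 - r)) := by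
    rw [← Finset.mul_sum]
    refine mul_le_mul_of_nonneg_left ?_ (by positivity)
    rw [geom_sum_eq hr1.ne, ← neg_div_neg_eq, neg_sub, neg_sub]
    refine div_le_div_of_nonneg_right ?_ (by linarith)
    have : 0 < r ^ I := by positivity
    linarith
  calc 2 * _ ≤ 2 * (cmx k * C₁ * 2 ^ k * V₀ ^ (-a) * (1 / (1 - r))) := by linarith
    _ = 2 * (cmx k * C₁ * 2 ^ k / (1 - r)) * V₀ ^ (-a) := by ring
    _ ≤ B * V₀ ^ (-a) := by
        rw [hB]
        refine mul_le_mul_of_nonneg_right ?_ hVa.le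
        linarith

/-- **All bounds at once.** -/
theorem all_at_once (hG : Thin ω G Cb) {A : ℝ} (hA : 0 < A) (hX : ∀ v t, |X v t| ≤ A / Real.sqrt (nv v))
    (m e : HeightOneSpectrum (𝓞 K) → ℝ) (he : Summable e) (hm : ∀ v, |av Finset.univ (X v) - m v| ≤ e v)
    {δ a : ℝ} (hδ : 0 < δ) (ha : 0 < a) :
    ∃ C : ℕ, ∃ B : ℝ, 0 < B ∧ ∃ Z₁ : ℕ, ∀ Z₀ : ℕ, Z₁ ≤ Z₀ → ∀ H : J → ℕ,
      prop ω H G (fun t => ∃ Z : ℕ, Z₀ ≤ Z ∧ (∀ j, Z ^ C ≤ H j) ∧
        VZ K Z ^ (1 / 2 + δ) < |SB X (SZ K Z) t - ∑ v ∈ SZ K Z, m v|) ≤ B * VZ K Z₀ ^ (-a) := by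
  classical
  have hav : ∀ v, |av Finset.univ (X v)| ≤ A / Real.sqrt (nv v) := by
    intro v
    have hc : (0 : ℝ) < (Finset.univ : Finset (J → kv v)).card := by
      rw [Finset.card_univ]; exact_mod_cast Fintype.card_pos
    unfold av
    rw [abs_div, abs_of_pos hc, div_le_iff₀ hc]
    refine (Finset.abs_sum_le_sum_abs _ _).trans ?_
    refine (Finset.sum_le_sum fun t _ => hX v t).trans (le_of_eq ?_)
    rw [Finset.sum_const, nsmul_eq_mul, mul_comm]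
  obtain ⟨Xc, hXc⟩ : ∃ Xc : ∀ v : HeightOneSpectrum (𝓞 K), (J → kv v) → ℝ, Xc = fun v t => X v t - av Finset.univ (X v) := ⟨_, rfl⟩
  have h1 : ∀ v t, |Xc v t| ≤ 2 * A / Real.sqrt (nv v) := by
    intro v t
    rw [hXc]
    refine (abs_sub _ _).trans ((add_le_add (hX v t) (hav v)).trans (le_of_eq ?_))
    ring
  have h2 : ∀ v, av Finset.univ (Xc v) = 0 := by
    intro v
    have hc : (0 : ℝ) < (Finset.univ : Finset (J → kv v)).card := by
      rw [Finset.card_univ]; exact_mod_cast Fintype.card_pos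
    rw [hXc]
    show av Finset.univ (fun t => X v t - av Finset.univ (X v)) = 0
    have e1 : av Finset.univ (fun t => X v t - av Finset.univ (X v)) = av Finset.univ (X v) - av Finset.univ (X v) := by
      conv_lhs => unfold av
      rw [Finset.sum_sub_distrib, Finset.sum_const, nsmul_eq_mul, sub_div, mul_div_cancel_left₀ _ hc.ne']
      rfl
    rw [e1, sub_self]
  obtain ⟨C, B, hB, Z₁, hZ₁⟩ := centred_all ω Xc hG (A := 2 * A) (by positivity) h1 h2 (δ := δ / 2) (by positivity) ha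
  obtain ⟨S, hS⟩ : ∃ S : ℝ, S = ∑' v, e v := ⟨_, rfl⟩
  have he0 : ∀ v, 0 ≤ e v := fun v => (abs_nonneg _).trans (hm v)
  have hroom : ∀ᶠ y : ℝ in atTop, S + y ^ (1 / 2 + δ / 2) ≤ y ^ (1 / 2 + δ) := by
    have h2 : Tendsto (fun y : ℝ => y ^ (δ / 2)) atTop atTop := tendsto_rpow_atTop (by positivity)
    filter_upwards [h2.eventually_ge_atTop (|S| + 1), eventually_ge_atTop (1 : ℝ)] with y hy hy1
    have e1 : y ^ (1 / 2 + δ) = y ^ (1 / 2 + δ / 2) * y ^ (δ / 2) := by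
      rw [← Real.rpow_add (by linarith)]
      congr 1
      ring
    have e2 : 1 ≤ y ^ (1 / 2 + δ / 2) := Real.one_le_rpow hy1 (by positivity)
    rw [e1]
    have e3 : y ^ (1 / 2 + δ / 2) * (|S| + 1) ≤ y ^ (1 / 2 + δ / 2) * y ^ (δ / 2) :=
      mul_le_mul_of_nonneg_left hy (by linarith)
    have e4 := le_abs_self S
    have e5 : |S| ≤ y ^ (1 / 2 + δ / 2) * |S| := le_mul_of_one_le_left (abs_nonneg _) e2
    linarith
  obtain ⟨Z₂, hZ₂⟩ := Filter.eventually_atTop.1 ((VZ_atTop (K := K)).eventually hroom)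
  refine ⟨C, B, hB, max Z₁ Z₂, fun Z₀ hZ₀ H => ?_⟩
  refine (prop_mono ω H fun t ht => ?_).trans (hZ₁ Z₀ ((le_max_left _ _).trans hZ₀) H)
  obtain ⟨Z, hZ, hZH, hb⟩ := ht
  refine ⟨Z, hZ, hZH, ?_⟩
  have h3 := hZ₂ Z (((le_max_right _ _).trans hZ₀).trans hZ)
  have e1 : SB X (SZ K Z) t - ∑ v ∈ SZ K Z, m v = SB Xc (SZ K Z) t + ∑ v ∈ SZ K Z, (av Finset.univ (X v) - m v) := by
    unfold SB
    rw [hXc, Finset.sum_sub_distrib, Finset.sum_sub_distrib]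
    ring
  have h4 : |∑ v ∈ SZ K Z, (av Finset.univ (X v) - m v)| ≤ S := by
    refine (Finset.abs_sum_le_sum_abs _ _).trans ((Finset.sum_le_sum fun v _ => hm v).trans ?_)
    rw [hS]
    exact he.sum_le_tsum _ fun v _ => he0 v
  rw [e1] at hb
  have h5 := abs_add_le (SB Xc (SZ K Z) t) (∑ v ∈ SZ K Z, (av Finset.univ (X v) - m v))
  linarith

end

end Run7.h876.PW.Al
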