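import Pool.Agent.Run7.h876.PW.Mod

/-!
# The characteristic function over boxes whose sides are powers of the bound
-/

set_option autoImplicit false
set_option linter.unusedSectionVars false

namespace Run7.h876.PW

open NumberField IsDedekindDomain Finset Filter Topology
open Run7.h876.MM (nv kv two_le_nv nv_pos avg norm_avg_le tail_bound tail_small SZ mem_SZ card_SZ instFieldKv instFintypeKv instDecKv)
open Run7.h876.EN Run7.h9.BS

theorem norm_avg_le_av {α : Type*} (B : Finset α) (f : α → ℂ) (g : α → ℝ) (h : ∀ c, ‖f c‖ ≤ g c) : ‖avg B f‖ ≤ av B g := by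
  unfold avg av
  rw [norm_div, Complex.norm_natCast]
  exact div_le_div_of_nonneg_right ((norm_sum_le _ _).trans (Finset.sum_le_sum fun c _ => h c)) (by positivity)

/-- The truncated exponential series. -/
theorem trunc {α : Type*} (B : Finset α) (f : α → ℝ) (κ : ℝ) (k : ℕ) :
    ‖avg B (fun c => Complex.exp (Complex.I * κ * f c)) -
      ∑ j ∈ range (2 * k), (Complex.I * κ) ^ j / (j.factorial : ℂ) * ((av B (fun c => f c ^ j) : ℝ) : ℂ)‖ ≤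
      κ ^ (2 * k) / (2 * k).factorial * av B (fun c => f c ^ (2 * k)) := by
  have e1 : ∑ j ∈ range (2 * k), (Complex.I * κ) ^ j / (j.factorial : ℂ) * ((av B (fun c => f c ^ j) : ℝ) : ℂ) =
      avg B (fun c => ∑ j ∈ range (2 * k), (((κ * f c : ℝ) : ℂ) * Complex.I) ^ j / (j.factorial : ℂ)) := by
    unfold avg
    rw [Finset.sum_comm, Finset.sum_div]
    refine Finset.sum_congr rfl fun j _ => ?_
    rw [← avg_av]
    unfold avg
    rw [← mul_div_assoc, Finset.mul_sum]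
    congr 1
    refine Finset.sum_congr rfl fun c _ => ?_
    push_cast
    rw [mul_pow, mul_pow, mul_pow]
    ring
  have e2 : avg B (fun c => Complex.exp (Complex.I * κ * f c)) -
      avg B (fun c => ∑ j ∈ range (2 * k), (((κ * f c : ℝ) : ℂ) * Complex.I) ^ j / (j.factorial : ℂ)) =
      avg B (fun c => Complex.exp (((κ * f c : ℝ) : ℂ) * Complex.I) -
        ∑ j ∈ range (2 * k), (((κ * f c : ℝ) : ℂ) * Complex.I) ^ j / (j.factorial : ℂ)) := by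
    have harg : (fun c => Complex.exp (Complex.I * κ * f c)) = fun c => Complex.exp (((κ * f c : ℝ) : ℂ) * Complex.I) := by
      funext c
      congr 1
      push_cast
      ring
    rw [harg]
    unfold avg
    rw [Finset.sum_sub_distrib, sub_div]
  rw [e1, e2, ← av_mul]
  refine norm_avg_le_av _ _ _ fun c => (taylor_exp_I (2 * k) (κ * f c)).trans (le_of_eq ?_)
  have e3 : |κ * f c| ^ (2 * k) = κ ^ (2 * k) * f c ^ (2 * k) := by
    rw [pow_mul, sq_abs, ← pow_mul, mul_pow]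
  rw [e3]
  ring

section
variable {K : Type} [Field K] [NumberField K] {J : Type} [Fintype J] [DecidableEq J] (𝓛 : LocalData K J)
variable {ι : Type} [Fintype ι] [DecidableEq ι] (ω : Module.Basis ι ℤ (𝓞 K)) {G : Set (J → 𝓞 K)} {Cb : ℝ}

theorem order_exists (B R ε : ℝ) (hB : 1 ≤ B) (hR : 0 ≤ R) (hε : 0 < ε) :
    ∃ k : ℕ, 1 ≤ k ∧ 4 * B * (R ^ 2 * Real.exp 1 / (2 * k)) ^ k ≤ ε := by
  obtain ⟨n, hn⟩ := exists_pow_lt_of_lt_one (show (0 : ℝ) < ε / (4 * B) by positivity) (show (1 / 2 : ℝ) < 1 by norm_num)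
  refine ⟨max n (⌈R ^ 2 * Real.exp 1⌉₊ + 1), le_max_of_le_right (by omega), ?_⟩
  set k := max n (⌈R ^ 2 * Real.exp 1⌉₊ + 1) with hk
  have h1 : R ^ 2 * Real.exp 1 ≤ k := by
    calc R ^ 2 * Real.exp 1 ≤ (⌈R ^ 2 * Real.exp 1⌉₊ : ℝ) := Nat.le_ceil _
      _ ≤ ((⌈R ^ 2 * Real.exp 1⌉₊ + 1 : ℕ) : ℝ) := by push_cast; linarith
      _ ≤ k := by exact_mod_cast le_max_right _ _
  have hk1 : (1 : ℝ) ≤ k := by
    have : 1 ≤ k := le_max_of_le_right (by omega)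
    exact_mod_cast this
  have h2 : R ^ 2 * Real.exp 1 / (2 * k) ≤ 1 / 2 := by
    rw [div_le_div_iff₀ (by positivity) (by norm_num)]
    linarith
  have h3 : (R ^ 2 * Real.exp 1 / (2 * k)) ^ k ≤ (1 / 2) ^ n :=
    (pow_le_pow_left₀ (by positivity) h2 k).trans (pow_le_pow_of_le_one (by norm_num) (by norm_num) (le_max_left _ _))
  have h4 : (R ^ 2 * Real.exp 1 / (2 * k)) ^ k ≤ ε / (4 * B) := h3.trans hn.le
  rw [le_div_iff₀ (by positivity)] at h4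
  linarith

/-- **The characteristic function.** -/
theorem box_char (hCb : 0 ≤ Cb) (hG : Thin ω G Cb) {R ε : ℝ} (hR : 0 ≤ R) (hε : 0 < ε) : ∃ C Z₀ : ℕ, ∀ Z : ℕ, Z₀ ≤ Z →
    ∀ H : J → ℕ, (∀ j, Z ^ C ≤ H j) → ∀ u : ℝ, |u| ≤ R →
    ‖mean ω H G (fun t => Complex.exp (Complex.I * (u / Real.sqrt (𝓛.D * VZ K Z) : ℝ) * ((𝓛.W Z t - 𝓛.m * VZ K Z : ℝ) : ℂ))) -
      Complex.exp (-((u : ℂ) ^ 2 / 2))‖ ≤ ε := by
  have hD := 𝓛.D_pos
  have hA := AL_nonneg 𝓛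
  obtain ⟨B, hB1, hB⟩ := mod_even 𝓛
  obtain ⟨T, hT, hcard⟩ := card_SZ K (θ := 1) one_pos
  have hε4 : 0 < ε / 4 := by linarith
  obtain ⟨k, hk1, hk⟩ := order_exists B R (ε / 4) hB1 hR hε4
  have hk1' : (1 : ℝ) ≤ k := by exact_mod_cast hk1
  obtain ⟨Z₁, hZ₁⟩ := mod_char 𝓛 hR hε4
  obtain ⟨Z₂, hZ₂⟩ := Filter.eventually_atTop.1
    ((VZ_atTop (K := K)).eventually_ge_atTop (max (2 * (k : ℝ)) (max 1 (R ^ 2)) / 𝓛.D))
  obtain ⟨Q, hQ⟩ : ∃ Q : ℝ, Q = (2 * k + 1) * (T * AL 𝓛 + 1) ^ (2 * k) * 2 ^ Fintype.card (J × ι) := ⟨_, rfl⟩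
  have hQ0 : 0 ≤ Q := by rw [hQ]; positivity
  obtain ⟨Z₃, hZ₃⟩ := exists_nat_ge ((Q + 2 * Cb) / (ε / 4))
  refine ⟨6 * k + 1, max (max 1 Z₁) (max Z₂ Z₃), fun Z hZ H hH u hu => ?_⟩
  have hZ1 : 1 ≤ Z := ((le_max_left _ _).trans (le_max_left _ _)).trans hZ
  have hZZ1 : Z₁ ≤ Z := ((le_max_right _ _).trans (le_max_left _ _)).trans hZ
  have hZZ2 : Z₂ ≤ Z := ((le_max_left _ _).trans (le_max_right _ _)).trans hZ
  have hZZ3 : Z₃ ≤ Z := ((le_max_right _ _).trans (le_max_right _ _)).trans hZ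
  have hZ0 : (1 : ℝ) ≤ Z := by exact_mod_cast hZ1
  have hZpos : (0 : ℝ) < Z := by linarith
  have hQZ : Q + 2 * Cb ≤ ε / 4 * Z := by
    have h1 : (Q + 2 * Cb) / (ε / 4) ≤ Z := hZ₃.trans (by exact_mod_cast hZZ3)
    rw [div_le_iff₀ hε4] at h1
    linarith
  have hcZ := hcard Z hZ1
  have hmain := hZ₁ Z hZZ1 u hu
  have hV := hZ₂ Z hZZ2
  obtain ⟨V, hVd⟩ : ∃ V, V = VZ K Z := ⟨_, rfl⟩
  have hBk := fun b hb0 hb1 => hB Z k b hb0 hb1
  rw [← hVd] at hV hmain hBk ⊢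
  rw [div_le_iff₀ hD] at hV
  have hDV1 : (1 : ℝ) ≤ 𝓛.D * V := by
    have := (le_max_left 1 (R ^ 2)).trans ((le_max_right (2 * (k : ℝ)) _).trans hV)
    linarith
  have hDVR : R ^ 2 ≤ 𝓛.D * V := by
    have := (le_max_right 1 (R ^ 2)).trans ((le_max_right (2 * (k : ℝ)) _).trans hV)
    linarith
  have hDVk : 2 * (k : ℝ) ≤ 𝓛.D * V := by
    have := (le_max_left (2 * (k : ℝ)) (max 1 (R ^ 2))).trans hV
    linarith
  obtain ⟨s, hs⟩ : ∃ s, s = Real.sqrt (𝓛.D * V) := ⟨_, rfl⟩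
  have hs2 : s ^ 2 = 𝓛.D * V := by rw [hs]; exact Real.sq_sqrt (by linarith)
  have hs1 : 1 ≤ s := by rw [hs]; exact Real.one_le_sqrt.2 hDV1
  have hs0 : 0 < s := by linarith
  have hRs : R ≤ s := by rw [hs]; exact Real.le_sqrt_of_sq_le hDVR
  rw [← hs] at hmain ⊢
  obtain ⟨κ, hκd⟩ : ∃ κ : ℝ, κ = u / s := ⟨_, rfl⟩
  rw [← hκd] at hmain ⊢
  have hκ1 : |κ| ≤ 1 := by
    rw [hκd, abs_div, abs_of_pos hs0, div_le_one hs0]
    exact hu.trans hRs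
  -- the mean over the thin set
  have hMH : ∀ j, Z ^ (6 * k + 1) ≤ H j := hH
  have hZM : (Z : ℝ) ^ (6 * k) * Z = ((Z ^ (6 * k + 1) : ℕ) : ℝ) := by push_cast; rw [pow_succ]
  have hpow1 : (1 : ℝ) ≤ (Z : ℝ) ^ (6 * k) := one_le_pow₀ hZ0
  have h1 := mean_close' ω hG H (Z ^ (6 * k + 1)) hMH
    (fun t => Complex.exp (Complex.I * (κ : ℂ) * ((𝓛.W Z t - 𝓛.m * V : ℝ) : ℂ))) 1 zero_le_one (fun t => by
      rw [Complex.norm_exp]
      have : (Complex.I * (κ : ℂ) * ((𝓛.W Z t - 𝓛.m * V : ℝ) : ℂ)).re = 0 := by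
        rw [mul_assoc, ← Complex.ofReal_mul, Complex.re_mul_ofReal]
        simp
      rw [this, Real.exp_zero])
  have h1' : 2 * (1 : ℝ) * (Cb / (2 * ((Z ^ (6 * k + 1) : ℕ) : ℝ) + 1)) ≤ 2 * Cb / Z := by
    rw [← hZM, mul_one, ← mul_div_assoc]
    refine div_le_div_of_nonneg_left (by positivity) hZpos ?_
    nlinarith
  -- the box
  obtain ⟨Yb, hYb⟩ : ∃ Yb : (J × ι → ℤ) → ℝ, Yb = fun c => SB (XX 𝓛) (SZ K Z) (tuple ω c) := ⟨_, rfl⟩
  obtain ⟨Ym, hYm⟩ : ∃ Ym : TS (SZ K Z) J → ℝ, Ym = fun t => SM (XX 𝓛) (SZ K Z) t := ⟨_, rfl⟩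
  have ebox : (fun c => Complex.exp (Complex.I * (κ : ℂ) * ((𝓛.W Z (tuple ω c) - 𝓛.m * V : ℝ) : ℂ))) =
      fun c => Complex.exp (Complex.I * (κ : ℂ) * Yb c) := by
    funext c
    rw [hYb]
    simp only
    rw [SB_eq, hVd]
  have emod : (fun t : TS (SZ K Z) J => Complex.exp (Complex.I * (κ : ℂ) * SM (XX 𝓛) (SZ K Z) t)) =
      fun t => Complex.exp (Complex.I * (κ : ℂ) * Ym t) := by rw [hYm]
  rw [ebox] at h1
  rw [emod] at hmain
  have h2 := trunc (box ι H) Yb κ k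
  have h3 := trunc (Finset.univ : Finset (TS (SZ K Z) J)) Ym κ k
  -- the moments
  obtain ⟨δ, hδ⟩ : ∃ δ : ℝ, δ = 2 ^ Fintype.card (J × ι) * ((Z : ℝ) ^ (2 * k) / (2 * ((Z ^ (6 * k + 1) : ℕ) : ℝ) + 1)) := ⟨_, rfl⟩
  have hδ0 : 0 ≤ δ := by rw [hδ]; positivity
  have hmc : ∀ i, i ≤ 2 * k → |av (box ι H) (fun c => Yb c ^ i) - av (Finset.univ : Finset (TS (SZ K Z) J)) (fun t => Ym t ^ i)| ≤
      ((T * AL 𝓛 + 1) * (Z : ℝ) ^ 2) ^ (2 * k) * δ := by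
    intro i hi
    have hM' : Z ^ (2 * k) ≤ 2 * Z ^ (6 * k + 1) + 1 := by
      have : Z ^ (2 * k) ≤ Z ^ (6 * k + 1) := Nat.pow_le_pow_right hZ1 (by omega)
      omega
    have h := mom_close ω (XX 𝓛) (SZ K Z) hA (XX_le 𝓛) (N := 2 * k) (M := Z ^ (6 * k + 1)) hZ1 (fun v hv => mem_SZ.1 hv) H hMH hM' hi
    rw [← hδ] at h
    rw [hYb, hYm]
    refine h.trans (mul_le_mul_of_nonneg_right ?_ hδ0)
    have h5 : ((SZ K Z).card : ℝ) * AL 𝓛 ≤ (T * AL 𝓛 + 1) * (Z : ℝ) ^ 2 := by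
      have e : (Z : ℝ) ^ ((1 : ℝ) + 1) = (Z : ℝ) ^ 2 := by
        rw [← Real.rpow_natCast]; norm_num
      rw [e] at hcZ
      have : 0 ≤ (Z : ℝ) ^ 2 := by positivity
      calc ((SZ K Z).card : ℝ) * AL 𝓛 ≤ (T * (Z : ℝ) ^ 2) * AL 𝓛 := by gcongr
        _ ≤ _ := by nlinarith
    have h6 : 1 ≤ (T * AL 𝓛 + 1) * (Z : ℝ) ^ 2 := by
      have h7 : (1 : ℝ) ≤ (Z : ℝ) ^ 2 := one_le_pow₀ hZ0
      have h8 : 0 ≤ T * AL 𝓛 := by positivity
      nlinarith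
    exact (pow_le_pow_left₀ (by positivity) h5 i).trans (pow_le_pow_right₀ h6 hi)
  obtain ⟨E, hE⟩ : ∃ E : ℝ, E = ((T * AL 𝓛 + 1) * (Z : ℝ) ^ 2) ^ (2 * k) * δ := ⟨_, rfl⟩
  have hE0 : 0 ≤ E := by rw [hE]; positivity
  have hEQ : (2 * k + 1) * E ≤ Q / Z := by
    rw [hE, hδ, le_div_iff₀ hZpos, hQ, ← hZM, mul_pow, ← pow_mul]
    have e : (2 * (k : ℝ) + 1) * ((T * AL 𝓛 + 1) ^ (2 * k) * (Z : ℝ) ^ (2 * (2 * k)) *
        (2 ^ Fintype.card (J × ι) * ((Z : ℝ) ^ (2 * k) / (2 * ((Z : ℝ) ^ (6 * k) * Z) + 1)))) * Z =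
        ((2 * k + 1) * (T * AL 𝓛 + 1) ^ (2 * k) * 2 ^ Fintype.card (J × ι)) * (((Z : ℝ) ^ (6 * k) * Z) / (2 * ((Z : ℝ) ^ (6 * k) * Z) + 1)) := by
      have e1 : (Z : ℝ) ^ (2 * (2 * k)) * (Z : ℝ) ^ (2 * k) = (Z : ℝ) ^ (6 * k) := by rw [← pow_add]; congr 1; ring
      rw [← e1]
      ring
    rw [e]
    refine mul_le_of_le_one_right (by positivity) ?_
    rw [div_le_one (by positivity)]
    nlinarith
  -- the coefficients
  obtain ⟨a, ha⟩ : ∃ a : ℕ → ℂ, a = fun j => (Complex.I * (κ : ℂ)) ^ j / (j.factorial : ℂ) := ⟨_, rfl⟩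
  have ha1 : ∀ j, ‖a j‖ ≤ 1 := by
    intro j
    rw [ha]
    simp only
    rw [norm_div, norm_pow, norm_mul, Complex.norm_I, one_mul, Complex.norm_real, Real.norm_eq_abs, Complex.norm_natCast]
    have h4 : (1 : ℝ) ≤ j.factorial := by exact_mod_cast Nat.factorial_pos j
    rw [div_le_one (by linarith)]
    exact (pow_le_one₀ (abs_nonneg _) hκ1).trans h4
  have h4 : ‖∑ j ∈ range (2 * k), (Complex.I * κ) ^ j / (j.factorial : ℂ) * ((av (box ι H) (fun c => Yb c ^ j) : ℝ) : ℂ) -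
      ∑ j ∈ range (2 * k), (Complex.I * κ) ^ j / (j.factorial : ℂ) *
        ((av (Finset.univ : Finset (TS (SZ K Z) J)) (fun t => Ym t ^ j) : ℝ) : ℂ)‖ ≤ 2 * k * E := by
    rw [← Finset.sum_sub_distrib]
    refine (norm_sum_le _ _).trans ((Finset.sum_le_sum (g := fun _ => E) fun j hj => ?_).trans (le_of_eq ?_))
    · rw [← mul_sub, norm_mul, ← Complex.ofReal_sub, Complex.norm_real, Real.norm_eq_abs, hE]
      have h5 := ha1 j
      rw [ha] at h5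
      calc _ ≤ 1 * (((T * AL 𝓛 + 1) * (Z : ℝ) ^ 2) ^ (2 * k) * δ) :=
            mul_le_mul h5 (hmc j (Finset.mem_range.1 hj).le) (abs_nonneg _) zero_le_one
        _ = _ := one_mul _
    · rw [Finset.sum_const, Finset.card_range, nsmul_eq_mul]
      push_cast
      ring
  -- the remainders
  obtain ⟨c, hc⟩ : ∃ c : ℝ, c = κ ^ (2 * k) / (2 * k).factorial := ⟨_, rfl⟩
  have hfac : (0 : ℝ) < (2 * k).factorial := by exact_mod_cast Nat.factorial_pos _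
  have hfac1 : (1 : ℝ) ≤ (2 * k).factorial := by exact_mod_cast Nat.factorial_pos _
  have hκk : 0 ≤ κ ^ (2 * k) := by rw [pow_mul]; positivity
  have hc0 : 0 ≤ c := by rw [hc]; positivity
  have hc1 : c ≤ 1 := by
    rw [hc, div_le_one hfac]
    have : κ ^ (2 * k) ≤ 1 := by
      rw [pow_mul, ← sq_abs]
      exact pow_le_one₀ (by positivity) (pow_le_one₀ (abs_nonneg _) hκ1)
    linarith
  have h5 : av (box ι H) (fun c => Yb c ^ (2 * k)) ≤ av (Finset.univ : Finset (TS (SZ K Z) J)) (fun t => Ym t ^ (2 * k)) + E := by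
    have := (abs_le.1 (hmc (2 * k) le_rfl)).2
    rw [← hE] at this
    linarith
  have h6 : 2 * (c * av (Finset.univ : Finset (TS (SZ K Z) J)) (fun t => Ym t ^ (2 * k))) ≤ ε / 4 := by
    have hsk : 0 < Real.sqrt (2 * k) := Real.sqrt_pos.2 (by positivity)
    have hb := hBk (Real.sqrt (2 * k) / s) (by positivity) (by
      rw [div_le_one hs0, hs]
      exact Real.sqrt_le_sqrt hDVk)
    have eb2 : (Real.sqrt (2 * k) / s) ^ 2 = 2 * k / (𝓛.D * V) := by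
      rw [div_pow, hs2, Real.sq_sqrt (by positivity)]
    have eb3 : (Real.sqrt (2 * k) / s) ^ 2 * 𝓛.D / 2 * V = k := by
      rw [eb2]
      have hV0 : V ≠ 0 := by
        rintro h0
        rw [h0, mul_zero] at hDV1
        linarith
      field_simp
    rw [eb3, pow_mul (Real.sqrt (2 * k) / s), eb2] at hb
    have e1 : av (Finset.univ : Finset (TS (SZ K Z) J)) (fun t => Ym t ^ (2 * k)) ≤
        (2 * k).factorial / (2 * k / (𝓛.D * V)) ^ k * (2 * B * Real.exp k) := by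
      rw [hYm]; exact hb
    have e2 : 2 * (c * ((2 * k).factorial / (2 * k / (𝓛.D * V)) ^ k * (2 * B * Real.exp k))) =
        4 * B * (u ^ 2 * Real.exp 1 / (2 * k)) ^ k := by
      rw [hc, hκd, pow_mul, div_pow u s 2, hs2]
      have hek : Real.exp (k : ℝ) = Real.exp 1 ^ k := by
        rw [← Real.exp_nat_mul, mul_one]
      rw [hek]
      have hV0 : V ≠ 0 := by
        rintro h0
        rw [h0, mul_zero] at hDV1
        linarith
      have hk0 : (k : ℝ) ≠ 0 := by linarith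
      have hD0 := hD.ne'
      have e3 : u ^ 2 * Real.exp 1 / (2 * k) = u ^ 2 / (𝓛.D * V) / (2 * k / (𝓛.D * V)) * Real.exp 1 := by
        field_simp
      rw [e3, mul_pow, div_pow (u ^ 2 / (𝓛.D * V))]
      have hb0 : (2 * (k : ℝ) / (𝓛.D * V)) ^ k ≠ 0 := pow_ne_zero _ (by positivity)
      have hf0 : ((2 * k).factorial : ℝ) ≠ 0 := hfac.ne'
      obtain ⟨x, hx⟩ : ∃ x, x = (u ^ 2 / (𝓛.D * V)) ^ k := ⟨_, rfl⟩
      obtain ⟨y, hy⟩ : ∃ y, y = (2 * (k : ℝ) / (𝓛.D * V)) ^ k := ⟨_, rfl⟩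
      rw [← hx, ← hy]
      rw [← hy] at hb0
      field_simp
      ring
    have hu2 : u ^ 2 ≤ R ^ 2 := by
      rw [← sq_abs]
      exact pow_le_pow_left₀ (abs_nonneg _) hu 2
    calc 2 * (c * av (Finset.univ : Finset (TS (SZ K Z) J)) (fun t => Ym t ^ (2 * k))) ≤
          2 * (c * ((2 * k).factorial / (2 * k / (𝓛.D * V)) ^ k * (2 * B * Real.exp k))) := by gcongr
      _ = 4 * B * (u ^ 2 * Real.exp 1 / (2 * k)) ^ k := e2
      _ ≤ 4 * B * (R ^ 2 * Real.exp 1 / (2 * k)) ^ k := by gcongr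
      _ ≤ ε / 4 := hk
  -- the end
  rw [← hc] at h2 h3
  have h7 : 2 * k * E + c * E ≤ Q / Z := by
    have : c * E ≤ 1 * E := mul_le_mul_of_nonneg_right hc1 hE0
    linarith
  have h8 : Q / Z + 2 * Cb / Z ≤ ε / 4 := by
    rw [← add_div, div_le_iff₀ hZpos]
    exact hQZ
  have h2' := h2.trans (mul_le_mul_of_nonneg_left h5 hc0)
  rw [mul_add] at h2'
  refine (norm_sub_le_norm_sub_add_norm_sub _ (avg (box ι H) fun c => Complex.exp (Complex.I * (κ : ℂ) * Yb c)) _).trans ?_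
  have g1 : ‖(avg (box ι H) fun c => Complex.exp (Complex.I * (κ : ℂ) * Yb c)) - Complex.exp (-((u : ℂ) ^ 2 / 2))‖ ≤
      (c * av (Finset.univ : Finset (TS (SZ K Z) J)) (fun t => Ym t ^ (2 * k)) + c * E) + 2 * k * E +
      c * av (Finset.univ : Finset (TS (SZ K Z) J)) (fun t => Ym t ^ (2 * k)) + ε / 4 := by
    refine (norm_sub_le_norm_sub_add_norm_sub _ _ _).trans (add_le_add ?_ hmain)
    refine (norm_sub_le_norm_sub_add_norm_sub _ _ _).trans (add_le_add ?_ (by rw [norm_sub_rev]; exact h3))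
    exact (norm_sub_le_norm_sub_add_norm_sub _ _ _).trans (add_le_add h2' h4)
  linarith

end

end Run7.h876.PW
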