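import Pool.Agent.Run7.h876.PW.Tail

/-!
# The characteristic function of a sum of local functions over a box and over the independent variables
-/

set_option autoImplicit false
set_option linter.unusedSectionVars false

namespace Run7.h876.PW

open NumberField IsDedekindDomain Finset Filter Topology
open Run7.h876.MM (nv kv two_le_nv nv_pos avg norm_avg_le SZ mem_SZ card_SZ instFieldKv instFintypeKv instDecKv)
open Run7.h876.EN Run7.h9.BS

section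
variable {K : Type} [Field K] [NumberField K] {J : Type} [Fintype J] [DecidableEq J]
variable {ι : Type} [Fintype ι] [DecidableEq ι] (ω : Module.Basis ι ℤ (𝓞 K)) {G : Set (J → 𝓞 K)} {Cb : ℝ}
variable (X : ∀ v : HeightOneSpectrum (𝓞 K), (J → kv v) → ℝ)

theorem char_close (hCb : 0 ≤ Cb) (hG : Thin ω G Cb) {A T W₀ : ℝ} (hA : 0 ≤ A) (hX : ∀ v t, |X v t| ≤ A) (hT : 0 ≤ T)
    (hcard : ∀ Z : ℕ, 1 ≤ Z → ((SZ K Z).card : ℝ) ≤ T * (Z : ℝ) ^ ((1 : ℝ) + 1)) (k : ℕ) {Z : ℕ} (hZ1 : 1 ≤ Z)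
    (H : J → ℕ) (hH : ∀ j, Z ^ (6 * k + 1) ≤ H j)
    (hmod : av (Finset.univ : Finset (TS (SZ K Z) J)) (fun t => SM X (SZ K Z) t ^ (2 * k)) ≤ (2 * k).factorial * W₀) :
    ‖mean ω H G (fun t => Complex.exp (Complex.I * (SB X (SZ K Z) t : ℂ))) -
      avg (Finset.univ : Finset (TS (SZ K Z) J)) (fun t => Complex.exp (Complex.I * (SM X (SZ K Z) t : ℂ)))‖ ≤
      2 * W₀ + ((2 * k + 1) * (T * A + 1) ^ (2 * k) * 2 ^ Fintype.card (J × ι) + 2 * Cb) / Z := by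
  obtain ⟨Q, hQ⟩ : ∃ Q : ℝ, Q = (2 * k + 1) * (T * A + 1) ^ (2 * k) * 2 ^ Fintype.card (J × ι) := ⟨_, rfl⟩
  rw [← hQ]
  have hQ0 : 0 ≤ Q := by rw [hQ]; positivity
  have hZ0 : (1 : ℝ) ≤ Z := by exact_mod_cast hZ1
  have hZpos : (0 : ℝ) < Z := by linarith
  have hcZ := hcard Z hZ1
  -- the mean over the thin set
  have hMH : ∀ j, Z ^ (6 * k + 1) ≤ H j := hH
  have hZM : (Z : ℝ) ^ (6 * k) * Z = ((Z ^ (6 * k + 1) : ℕ) : ℝ) := by push_cast; rw [pow_succ]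
  have hpow1 : (1 : ℝ) ≤ (Z : ℝ) ^ (6 * k) := one_le_pow₀ hZ0
  have h1 := mean_close' ω hG H (Z ^ (6 * k + 1)) hMH
    (fun t => Complex.exp (Complex.I * (SB X (SZ K Z) t : ℂ))) 1 zero_le_one (fun t => by
      rw [Complex.norm_exp]
      have : (Complex.I * (SB X (SZ K Z) t : ℂ)).re = 0 := by
        rw [Complex.re_mul_ofReal]
        simp
      rw [this, Real.exp_zero])
  have h1' : 2 * (1 : ℝ) * (Cb / (2 * ((Z ^ (6 * k + 1) : ℕ) : ℝ) + 1)) ≤ 2 * Cb / Z := by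
    rw [← hZM, mul_one, ← mul_div_assoc]
    refine div_le_div_of_nonneg_left (by positivity) hZpos ?_
    nlinarith
  -- the box
  obtain ⟨Yb, hYb⟩ : ∃ Yb : (J × ι → ℤ) → ℝ, Yb = fun c => SB X (SZ K Z) (tuple ω c) := ⟨_, rfl⟩
  obtain ⟨Ym, hYm⟩ : ∃ Ym : TS (SZ K Z) J → ℝ, Ym = fun t => SM X (SZ K Z) t := ⟨_, rfl⟩
  have h2 := trunc (box ι H) Yb 1 k
  have h3 := trunc (Finset.univ : Finset (TS (SZ K Z) J)) Ym 1 k
  rw [Complex.ofReal_one, mul_one, one_pow] at h2 h3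
  have ebox : (fun c => Complex.exp (Complex.I * (SB X (SZ K Z) (tuple ω c) : ℂ))) =
      fun c => Complex.exp (Complex.I * Yb c) := by rw [hYb]
  have emod : (fun t : TS (SZ K Z) J => Complex.exp (Complex.I * (SM X (SZ K Z) t : ℂ))) =
      fun t => Complex.exp (Complex.I * Ym t) := by rw [hYm]
  rw [ebox] at h1
  rw [emod]
  -- the moments
  obtain ⟨δ, hδ⟩ : ∃ δ : ℝ, δ = 2 ^ Fintype.card (J × ι) * ((Z : ℝ) ^ (2 * k) / (2 * ((Z ^ (6 * k + 1) : ℕ) : ℝ) + 1)) := ⟨_, rfl⟩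
  have hδ0 : 0 ≤ δ := by rw [hδ]; positivity
  have hmc : ∀ i, i ≤ 2 * k → |av (box ι H) (fun c => Yb c ^ i) - av (Finset.univ : Finset (TS (SZ K Z) J)) (fun t => Ym t ^ i)| ≤
      ((T * A + 1) * (Z : ℝ) ^ 2) ^ (2 * k) * δ := by
    intro i hi
    have hM' : Z ^ (2 * k) ≤ 2 * Z ^ (6 * k + 1) + 1 := by
      have : Z ^ (2 * k) ≤ Z ^ (6 * k + 1) := Nat.pow_le_pow_right hZ1 (by omega)
      omega
    have h := mom_close ω X (SZ K Z) hA hX (N := 2 * k) (M := Z ^ (6 * k + 1)) hZ1 (fun v hv => mem_SZ.1 hv) H hMH hM' hi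
    rw [← hδ] at h
    rw [hYb, hYm]
    refine h.trans (mul_le_mul_of_nonneg_right ?_ hδ0)
    have h5 : ((SZ K Z).card : ℝ) * A ≤ (T * A + 1) * (Z : ℝ) ^ 2 := by
      have e : (Z : ℝ) ^ ((1 : ℝ) + 1) = (Z : ℝ) ^ 2 := by
        rw [← Real.rpow_natCast]; norm_num
      rw [e] at hcZ
      have : 0 ≤ (Z : ℝ) ^ 2 := by positivity
      calc ((SZ K Z).card : ℝ) * A ≤ (T * (Z : ℝ) ^ 2) * A := by gcongr
        _ ≤ _ := by nlinarith
    have h6 : 1 ≤ (T * A + 1) * (Z : ℝ) ^ 2 := by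
      have h7 : (1 : ℝ) ≤ (Z : ℝ) ^ 2 := one_le_pow₀ hZ0
      have h8 : 0 ≤ T * A := by positivity
      nlinarith
    exact (pow_le_pow_left₀ (by positivity) h5 i).trans (pow_le_pow_right₀ h6 hi)
  obtain ⟨E, hE⟩ : ∃ E : ℝ, E = ((T * A + 1) * (Z : ℝ) ^ 2) ^ (2 * k) * δ := ⟨_, rfl⟩
  have hE0 : 0 ≤ E := by rw [hE]; positivity
  have hEQ : (2 * k + 1) * E ≤ Q / Z := by
    rw [hE, hδ, le_div_iff₀ hZpos, hQ, ← hZM, mul_pow, ← pow_mul]
    have e : (2 * (k : ℝ) + 1) * ((T * A + 1) ^ (2 * k) * (Z : ℝ) ^ (2 * (2 * k)) *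
        (2 ^ Fintype.card (J × ι) * ((Z : ℝ) ^ (2 * k) / (2 * ((Z : ℝ) ^ (6 * k) * Z) + 1)))) * Z =
        ((2 * k + 1) * (T * A + 1) ^ (2 * k) * 2 ^ Fintype.card (J × ι)) * (((Z : ℝ) ^ (6 * k) * Z) / (2 * ((Z : ℝ) ^ (6 * k) * Z) + 1)) := by
      have e1 : (Z : ℝ) ^ (2 * (2 * k)) * (Z : ℝ) ^ (2 * k) = (Z : ℝ) ^ (6 * k) := by rw [← pow_add]; congr 1; ring
      rw [← e1]
      ring
    rw [e]
    refine mul_le_of_le_one_right (by positivity) ?_
    rw [div_le_one (by positivity)]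
    nlinarith
  -- the coefficients
  have h4 : ‖∑ j ∈ range (2 * k), Complex.I ^ j / (j.factorial : ℂ) * ((av (box ι H) (fun c => Yb c ^ j) : ℝ) : ℂ) -
      ∑ j ∈ range (2 * k), Complex.I ^ j / (j.factorial : ℂ) *
        ((av (Finset.univ : Finset (TS (SZ K Z) J)) (fun t => Ym t ^ j) : ℝ) : ℂ)‖ ≤ 2 * k * E := by
    rw [← Finset.sum_sub_distrib]
    refine (norm_sum_le _ _).trans ((Finset.sum_le_sum (g := fun _ => E) fun j hj => ?_).trans (le_of_eq ?_))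
    · rw [← mul_sub, norm_mul, ← Complex.ofReal_sub, Complex.norm_real, Real.norm_eq_abs, hE]
      have h5 : ‖Complex.I ^ j / (j.factorial : ℂ)‖ ≤ 1 := by
        rw [norm_div, norm_pow, Complex.norm_I, one_pow, Complex.norm_natCast]
        have h4 : (1 : ℝ) ≤ j.factorial := by exact_mod_cast Nat.factorial_pos j
        rw [div_le_one (by linarith)]
        exact h4
      calc _ ≤ 1 * (((T * A + 1) * (Z : ℝ) ^ 2) ^ (2 * k) * δ) :=
            mul_le_mul h5 (hmc j (Finset.mem_range.1 hj).le) (abs_nonneg _) zero_le_one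
        _ = _ := one_mul _
    · rw [Finset.sum_const, Finset.card_range, nsmul_eq_mul]
      push_cast
      ring
  -- the remainders
  have hfac : (0 : ℝ) < (2 * k).factorial := by exact_mod_cast Nat.factorial_pos _
  have hfac1 : (1 : ℝ) ≤ (2 * k).factorial := by exact_mod_cast Nat.factorial_pos _
  obtain ⟨c, hc⟩ : ∃ c : ℝ, c = 1 / (2 * k).factorial := ⟨_, rfl⟩
  have hc0 : 0 ≤ c := by rw [hc]; positivity
  have hc1 : c ≤ 1 := by rw [hc, div_le_one hfac]; exact hfac1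
  have h5 : av (box ι H) (fun c => Yb c ^ (2 * k)) ≤ av (Finset.univ : Finset (TS (SZ K Z) J)) (fun t => Ym t ^ (2 * k)) + E := by
    have := (abs_le.1 (hmc (2 * k) le_rfl)).2
    rw [← hE] at this
    linarith
  have h6 : c * av (Finset.univ : Finset (TS (SZ K Z) J)) (fun t => Ym t ^ (2 * k)) ≤ W₀ := by
    rw [hc, one_div, inv_mul_le_iff₀ hfac, hYm]
    exact hmod
  -- the end
  rw [← hc] at h2 h3
  have h7 : 2 * k * E + c * E ≤ Q / Z := by
    have : c * E ≤ 1 * E := mul_le_mul_of_nonneg_right hc1 hE0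
    linarith
  have h2' := h2.trans (mul_le_mul_of_nonneg_left h5 hc0)
  rw [mul_add] at h2'
  have g1 : ‖(avg (box ι H) fun c => Complex.exp (Complex.I * Yb c)) -
      avg (Finset.univ : Finset (TS (SZ K Z) J)) (fun t => Complex.exp (Complex.I * Ym t))‖ ≤
      (c * av (Finset.univ : Finset (TS (SZ K Z) J)) (fun t => Ym t ^ (2 * k)) + c * E) + 2 * k * E +
      c * av (Finset.univ : Finset (TS (SZ K Z) J)) (fun t => Ym t ^ (2 * k)) := by
    refine (norm_sub_le_norm_sub_add_norm_sub _ _ _).trans (add_le_add ?_ (by rw [norm_sub_rev]; exact h3))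
    exact (norm_sub_le_norm_sub_add_norm_sub _ _ _).trans (add_le_add h2' h4)
  have h8 : (Q + 2 * Cb) / Z = Q / Z + 2 * Cb / Z := by rw [add_div]
  rw [h8]
  refine (norm_sub_le_norm_sub_add_norm_sub _ (avg (box ι H) fun c => Complex.exp (Complex.I * Yb c)) _).trans ?_
  linarith

end

end Run7.h876.PW
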