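import Mathlib

/-!
# Taylor polynomials of the exponential function
-/

set_option autoImplicit false
set_option linter.unusedSectionVars false

namespace Run7.h876.PW

open Finset

theorem taylor_I (n : ℕ) : ∀ s : ℂ, ‖s‖ = 1 → s.re = 0 → ∀ x : ℝ, 0 ≤ x →
    ‖Complex.exp (x * s) - ∑ j ∈ range n, ((x : ℂ) * s) ^ j / (j.factorial : ℂ)‖ ≤ x ^ n / n.factorial := by
  intro s hs hs0
  induction n with
  | zero =>
    intro x hx
    rw [Finset.sum_range_zero, sub_zero, Complex.norm_exp]
    simp [hs0]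
  | succ n ih =>
    intro x hx
    set f : ℝ → ℂ := fun y => Complex.exp (y * s) - ∑ j ∈ range (n + 1), ((y : ℂ) * s) ^ j / (j.factorial : ℂ) with hf
    set f' : ℝ → ℂ := fun y => s * (Complex.exp (y * s) - ∑ j ∈ range n, ((y : ℂ) * s) ^ j / (j.factorial : ℂ)) with hf'
    have hd : ∀ y : ℝ, HasDerivAt f (f' y) y := by
      intro y
      have h0 : HasDerivAt (fun y : ℝ => (y : ℂ) * s) s y := by
        have := (Complex.ofRealCLM.hasDerivAt (x := y)).mul_const s
        simpa using this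
      have h1 : HasDerivAt (fun y : ℝ => Complex.exp ((y : ℂ) * s)) (Complex.exp (y * s) * s) y := h0.cexp
      have h2 : HasDerivAt (fun y : ℝ => ∑ j ∈ range (n + 1), ((y : ℂ) * s) ^ j / (j.factorial : ℂ))
          (∑ j ∈ range (n + 1), ((j : ℂ) * ((y : ℂ) * s) ^ (j - 1) * s) / (j.factorial : ℂ)) y := by
        refine HasDerivAt.fun_sum fun j _ => ?_
        exact (h0.pow j).div_const _
      have h3 := h1.sub h2
      have e : Complex.exp (y * s) * s - ∑ j ∈ range (n + 1), ((j : ℂ) * ((y : ℂ) * s) ^ (j - 1) * s) / (j.factorial : ℂ) = f' y := by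
        rw [hf', Finset.sum_range_succ']
        simp only [Nat.cast_zero, zero_mul, zero_div, add_zero, Nat.add_sub_cancel]
        rw [mul_sub, Finset.mul_sum, mul_comm s]
        congr 1
        refine Finset.sum_congr rfl fun j _ => ?_
        rw [Nat.factorial_succ]
        have h4 : ((j.factorial : ℕ) : ℂ) ≠ 0 := by exact_mod_cast Nat.factorial_ne_zero j
        have h5 : ((j : ℂ) + 1) ≠ 0 := by exact_mod_cast Nat.succ_ne_zero j
        push_cast
        field_simp
      rw [e] at h3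
      exact h3
    have hB : ∀ y : ℝ, HasDerivAt (fun y : ℝ => y ^ (n + 1) / ((n + 1).factorial : ℝ)) (y ^ n / n.factorial) y := by
      intro y
      have h1 := (hasDerivAt_pow (n + 1) y).div_const ((n + 1).factorial : ℝ)
      have e : ((n + 1 : ℕ) : ℝ) * y ^ (n + 1 - 1) / ((n + 1).factorial : ℝ) = y ^ n / n.factorial := by
        rw [Nat.factorial_succ, Nat.add_sub_cancel]
        have h4 : ((n.factorial : ℕ) : ℝ) ≠ 0 := by exact_mod_cast Nat.factorial_ne_zero n
        have h5 : ((n : ℝ) + 1) ≠ 0 := by exact_mod_cast Nat.succ_ne_zero n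
        push_cast
        field_simp
      rw [e] at h1
      exact h1
    have h := image_norm_le_of_norm_deriv_right_le_deriv_boundary' (f := f) (f' := f') (a := 0) (b := x)
      (fun y _ => (hd y).continuousAt.continuousWithinAt) (fun y _ => (hd y).hasDerivWithinAt)
      (B := fun y => y ^ (n + 1) / ((n + 1).factorial : ℝ)) (B' := fun y => y ^ n / n.factorial)
      (by
        simp only [hf]
        rw [Finset.sum_range_succ']
        simp)
      (fun y _ => (hB y).continuousAt.continuousWithinAt) (fun y _ => (hB y).hasDerivWithinAt)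
      (fun y hy => by
        simp only [hf']
        rw [norm_mul, hs, one_mul]
        exact ih y hy.1) (x := x) ⟨hx, le_rfl⟩
    exact h

/-- The Taylor polynomials of `exp (i x)`. -/
theorem taylor_exp_I (n : ℕ) (x : ℝ) :
    ‖Complex.exp (x * Complex.I) - ∑ j ∈ range n, ((x : ℂ) * Complex.I) ^ j / (j.factorial : ℂ)‖ ≤ |x| ^ n / n.factorial := by
  rcases le_total 0 x with h | h
  · rw [abs_of_nonneg h]
    exact taylor_I n Complex.I (by simp) (by simp) x h
  · have h1 := taylor_I n (-Complex.I) (by simp) (by simp) (-x) (by linarith)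
    rw [abs_of_nonpos h]
    have e : (((-x : ℝ)) : ℂ) * -Complex.I = x * Complex.I := by push_cast; ring
    rw [e] at h1
    exact h1

/-- the Taylor polynomial -/
noncomputable def Tp (n : ℕ) (x : ℝ) : ℝ := ∑ j ∈ range n, x ^ j / (j.factorial : ℝ)

theorem Tp_abs (n : ℕ) (x : ℝ) : |Tp n x| ≤ Real.exp |x| := by
  unfold Tp
  refine (Finset.abs_sum_le_sum_abs _ _).trans ?_
  have h1 : ∑ j ∈ range n, |x ^ j / (j.factorial : ℝ)| = ∑ j ∈ range n, |x| ^ j / (j.factorial : ℝ) :=
    Finset.sum_congr rfl fun j _ => by rw [abs_div, abs_pow, abs_of_nonneg (by positivity : (0 : ℝ) ≤ (j.factorial : ℝ))]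
  rw [h1]
  exact Real.sum_le_exp_of_nonneg (abs_nonneg x) n

theorem Tp_mono (n : ℕ) {x y : ℝ} (hx : 0 ≤ x) (h : x ≤ y) : Tp n x ≤ Tp n y := by
  unfold Tp
  exact Finset.sum_le_sum fun j _ => div_le_div_of_nonneg_right (pow_le_pow_left₀ hx h j) (by positivity)

theorem Tp_nonneg (n : ℕ) {x : ℝ} (hx : 0 ≤ x) : 0 ≤ Tp n x := by
  unfold Tp; positivity

theorem Tp_le (n : ℕ) {x : ℝ} (hx : 0 ≤ x) : Tp (n + 1) x ≤ (1 + x) ^ n := by
  unfold Tp
  rw [add_comm 1 x, add_pow]
  refine Finset.sum_le_sum fun j hj => ?_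
  rw [one_pow, mul_one]
  have hj' : j ≤ n := Nat.lt_succ_iff.1 (Finset.mem_range.1 hj)
  have h1 : (1 : ℝ) / j.factorial ≤ (n.choose j : ℝ) := by
    have h2 : (0 : ℝ) < j.factorial := by exact_mod_cast Nat.factorial_pos j
    have h3 : (1 : ℝ) ≤ (n.choose j : ℝ) := by exact_mod_cast Nat.choose_pos hj'
    have h4 : (1 : ℝ) ≤ j.factorial := by exact_mod_cast Nat.factorial_pos j
    calc (1 : ℝ) / j.factorial ≤ 1 := by rw [div_le_one h2]; exact h4
      _ ≤ _ := h3
  have h2 : 0 ≤ x ^ j := by positivity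
  calc x ^ j / (j.factorial : ℝ) = x ^ j * (1 / j.factorial) := by ring
    _ ≤ x ^ j * (n.choose j : ℝ) := mul_le_mul_of_nonneg_left h1 h2

/-- The lower bound. -/
theorem Tp_ge (n : ℕ) {y : ℝ} (hy : 0 ≤ y) (hn : 2 * y + 2 ≤ n) : Real.exp y / 2 ≤ Tp n y := by
  have h1 : ‖((y : ℝ) : ℂ)‖ / (n.succ : ℝ) ≤ 1 / 2 := by
    rw [Complex.norm_real, Real.norm_of_nonneg hy, div_le_iff₀ (by positivity)]
    push_cast
    linarith
  have h2 := Complex.exp_bound' h1
  have e : Complex.exp (y : ℂ) - ∑ m ∈ range n, (y : ℂ) ^ m / (m.factorial : ℂ) = ((Real.exp y - Tp n y : ℝ) : ℂ) := by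
    unfold Tp
    push_cast
    rfl
  rw [e, Complex.norm_real, Complex.norm_real, Real.norm_of_nonneg hy, Real.norm_eq_abs] at h2
  have h3 := (abs_le.1 h2).2
  -- the tail
  have h4 : (2 * y) ^ n / n.factorial ≤ Real.exp (2 * y) := Real.pow_div_factorial_le_exp (2 * y) (by linarith) n
  have h5 : y ^ n / n.factorial = (2 * y) ^ n / n.factorial / 2 ^ n := by
    rw [mul_pow]; field_simp
  have h6 : Real.exp (2 * y) / 2 ^ n ≤ Real.exp y / 4 := by
    have h7 : Real.exp y * 4 ≤ 2 ^ n := by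
      have h8 : (2 : ℝ) ^ n = Real.exp (n * Real.log 2) := by
        rw [mul_comm, Real.exp_mul, Real.exp_log (by norm_num), Real.rpow_natCast]
      have h9 : (4 : ℝ) = Real.exp (2 * Real.log 2) := by
        rw [mul_comm, Real.exp_mul, Real.exp_log (by norm_num)]; norm_num
      rw [h8, h9, ← Real.exp_add]
      refine Real.exp_le_exp.2 ?_
      have h10 := Real.log_two_gt_d9
      have h11 : 1 / 2 < Real.log 2 := by linarith
      have h12 : (2 * y + 2) * Real.log 2 ≤ n * Real.log 2 := mul_le_mul_of_nonneg_right hn (by linarith)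
      have h13 : y ≤ 2 * y * Real.log 2 := by nlinarith
      linarith
    rw [div_le_div_iff₀ (by positivity) (by norm_num)]
    have h8 : Real.exp (2 * y) = Real.exp y * Real.exp y := by rw [← Real.exp_add]; ring_nf
    rw [h8]
    have h9 := Real.exp_pos y
    nlinarith
  have h7 : y ^ n / n.factorial ≤ Real.exp y / 4 := by
    rw [h5]
    exact (div_le_div_of_nonneg_right h4 (by positivity)).trans h6
  linarith

/-- the nonnegative polynomial -/
noncomputable def Qp (n : ℕ) (x : ℝ) : ℝ := Tp n (x / 2) ^ 2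

theorem Qp_nonneg (n : ℕ) (x : ℝ) : 0 ≤ Qp n x := by unfold Qp; positivity

theorem Qp_le (n : ℕ) (x : ℝ) : Qp n x ≤ Real.exp x + Real.exp (-x) := by
  unfold Qp
  have h1 := Tp_abs n (x / 2)
  have h2 : Tp n (x / 2) ^ 2 ≤ Real.exp |x / 2| ^ 2 := by
    rw [← sq_abs]
    exact pow_le_pow_left₀ (abs_nonneg _) h1 2
  have h3 : Real.exp |x / 2| ^ 2 = Real.exp |x| := by
    rw [← Real.exp_nat_mul]
    congr 1
    rw [abs_div, abs_two]
    push_cast
    ring
  rw [h3] at h2
  refine h2.trans ?_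
  rcases abs_cases x with ⟨h, _⟩ | ⟨h, _⟩ <;> rw [h]
  · have := Real.exp_pos (-x); linarith
  · have := Real.exp_pos x; linarith

theorem Qp_ge (n : ℕ) {x y : ℝ} (hx : 0 ≤ x) (hn : x + 2 ≤ n) (h : x ≤ y) : Real.exp x / 4 ≤ Qp n y := by
  have h1 := Tp_ge n (y := x / 2) (by linarith) (by linarith)
  have h2 := Tp_mono n (x := x / 2) (y := y / 2) (by linarith) (by linarith)
  have h3 : Real.exp (x / 2) / 2 ≤ Tp n (y / 2) := h1.trans h2
  have h4 := pow_le_pow_left₀ (by positivity) h3 2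
  have h5 : (Real.exp (x / 2) / 2) ^ 2 = Real.exp x / 4 := by
    rw [div_pow, ← Real.exp_nat_mul]
    congr 1
    · congr 1
      push_cast
      ring
    · norm_num
  rw [h5] at h4
  exact h4

theorem Qp_eq (n : ℕ) (b Y : ℝ) : Qp n (b * Y) =
    ∑ j ∈ range n, ∑ l ∈ range n, ((b / 2) ^ j / j.factorial * ((b / 2) ^ l / l.factorial)) * Y ^ (j + l) := by
  unfold Qp Tp
  rw [sq, Finset.sum_mul_sum]
  refine Finset.sum_congr rfl fun j _ => Finset.sum_congr rfl fun l _ => ?_
  have e : b * Y / 2 = b / 2 * Y := by ring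
  rw [e, mul_pow, mul_pow, pow_add]
  ring

end Run7.h876.PW
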