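import Pool.Agent.Run7.h876.PW.Trans
import Pool.Agent.Run7.h876.PW.Exp
import Pool.Agent.Run7.h9.BS.Clt

/-!
# The sum of the independent variables
-/

set_option autoImplicit false
set_option linter.unusedSectionVars false

namespace Run7.h876.PW

open NumberField IsDedekindDomain Finset Filter Topology
open Run7.h876.MM (nv kv two_le_nv nv_pos avg norm_avg_le tail_bound tail_small SZ mem_SZ card_SZ instFieldKv instFintypeKv instDecKv)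
open Run7.h876.EN Run7.h9.BS

section
variable {K : Type} [Field K] [NumberField K] {J : Type} [Fintype J] [DecidableEq J] (𝓛 : LocalData K J)

/-- the centred local function -/
noncomputable def XX (v : HeightOneSpectrum (𝓞 K)) (t : J → kv v) : ℝ := 𝓛.lam v t - 𝓛.m * cv v

/-- the bound -/
noncomputable def AL : ℝ := 𝓛.L + |𝓛.m|

theorem AL_nonneg : 0 ≤ AL 𝓛 := add_nonneg 𝓛.L_nonneg (abs_nonneg _)

theorem XX_le (v : HeightOneSpectrum (𝓞 K)) (t : J → kv v) : |XX 𝓛 v t| ≤ AL 𝓛 := by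
  unfold XX AL
  refine (abs_sub _ _).trans (add_le_add (𝓛.lam_le v t) ?_)
  rw [abs_mul, abs_of_pos (cv_pos v)]
  exact mul_le_of_le_one_right (abs_nonneg _) (cv_le v)

theorem SB_eq (Z : ℕ) (t : J → 𝓞 K) : SB (XX 𝓛) (SZ K Z) t = 𝓛.W Z t - 𝓛.m * VZ K Z := by
  unfold SB XX LocalData.W VZ
  rw [Finset.sum_sub_distrib, Finset.mul_sum]

/-- the normalised product -/
noncomputable def PZ (Z : ℕ) (κ : ℂ) : ℂ := ∏ v ∈ SZ K Z, avg Finset.univ (fun t => Complex.exp (𝓛.ee κ v t))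

theorem mod_exp (Z : ℕ) (κ : ℂ) : avg (Finset.univ : Finset (TS (SZ K Z) J)) (fun t => Complex.exp (κ * SM (XX 𝓛) (SZ K Z) t)) =
    Complex.exp (κ ^ 2 * 𝓛.D / 2 * VZ K Z) * PZ 𝓛 Z κ := by
  rw [exp_SM]
  unfold PZ VZ
  have e : Complex.exp (κ ^ 2 * 𝓛.D / 2 * ((∑ v ∈ SZ K Z, cv v : ℝ) : ℂ)) = ∏ v ∈ SZ K Z, Complex.exp (κ ^ 2 * 𝓛.D / 2 * cv v) := by
    rw [← Complex.exp_sum]
    congr 1
    push_cast
    rw [Finset.mul_sum]
  rw [e, ← Finset.prod_mul_distrib]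
  refine Finset.prod_congr rfl fun v _ => ?_
  have e2 : (fun t : J → kv v => Complex.exp (κ * XX 𝓛 v t)) =
      fun t => Complex.exp (κ ^ 2 * 𝓛.D / 2 * cv v) * Complex.exp (𝓛.ee κ v t) := by
    funext t
    rw [← Complex.exp_add]
    congr 1
    unfold XX LocalData.ee
    push_cast
    ring
  rw [e2]
  unfold avg
  rw [← Finset.mul_sum]
  ring

theorem PZ_le (R : ℝ) (hR : 0 ≤ R) : ∃ B : ℝ, 1 ≤ B ∧ ∀ (Z : ℕ) (κ : ℂ), ‖κ‖ ≤ R → ‖PZ 𝓛 Z κ‖ ≤ B := by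
  obtain ⟨u, hu, hub⟩ := 𝓛.moments R hR
  have hu0 : ∀ v, 0 ≤ u v := fun v => (norm_nonneg _).trans (hub v 0 (by simpa using hR))
  refine ⟨Real.exp (∑' v, u v), Real.one_le_exp (tsum_nonneg hu0), fun Z κ hκ => ?_⟩
  unfold PZ
  rw [norm_prod]
  calc ∏ v ∈ SZ K Z, ‖avg Finset.univ (fun t => Complex.exp (𝓛.ee κ v t))‖ ≤ ∏ v ∈ SZ K Z, Real.exp (u v) := by
        refine Finset.prod_le_prod (fun _ _ => norm_nonneg _) fun v _ => ?_
        have h1 := hub v κ hκ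
        have h2 := norm_sub_norm_le (avg Finset.univ (fun t => Complex.exp (𝓛.ee κ v t))) 1
        rw [norm_one] at h2
        have h3 : ‖avg Finset.univ (fun t => Complex.exp (𝓛.ee κ v t)) - 1‖ ≤ u v := h1
        have h4 := Real.add_one_le_exp (u v)
        linarith
    _ = Real.exp (∑ v ∈ SZ K Z, u v) := (Real.exp_sum _ _).symm
    _ ≤ _ := Real.exp_le_exp.2 (hu.sum_le_tsum _ fun v _ => hu0 v)

/-- The exponential moments. -/
theorem mod_exp_real (R : ℝ) (hR : 0 ≤ R) : ∃ B : ℝ, 1 ≤ B ∧ ∀ (Z : ℕ) (κ : ℝ), |κ| ≤ R →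
    av (Finset.univ : Finset (TS (SZ K Z) J)) (fun t => Real.exp (κ * SM (XX 𝓛) (SZ K Z) t)) ≤
      B * Real.exp (κ ^ 2 * 𝓛.D / 2 * VZ K Z) := by
  obtain ⟨B, hB1, hB⟩ := PZ_le 𝓛 R hR
  refine ⟨B, hB1, fun Z κ hκ => ?_⟩
  have h1 := mod_exp 𝓛 Z κ
  have e1 : (fun t : TS (SZ K Z) J => Complex.exp ((κ : ℂ) * SM (XX 𝓛) (SZ K Z) t)) =
      fun t => ((Real.exp (κ * SM (XX 𝓛) (SZ K Z) t) : ℝ) : ℂ) := by
    funext t; push_cast; rfl
  rw [e1, avg_av] at h1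
  have h2 : av (Finset.univ : Finset (TS (SZ K Z) J)) (fun t => Real.exp (κ * SM (XX 𝓛) (SZ K Z) t)) =
      ‖((av (Finset.univ : Finset (TS (SZ K Z) J)) (fun t => Real.exp (κ * SM (XX 𝓛) (SZ K Z) t)) : ℝ) : ℂ)‖ := by
    rw [Complex.norm_real, Real.norm_of_nonneg (av_nonneg _ fun t => (Real.exp_pos _).le)]
  rw [h2, h1, norm_mul]
  have e2 : Complex.exp ((κ : ℂ) ^ 2 * 𝓛.D / 2 * VZ K Z) = ((Real.exp (κ ^ 2 * 𝓛.D / 2 * VZ K Z) : ℝ) : ℂ) := by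
    push_cast; rfl
  rw [e2, Complex.norm_real, Real.norm_of_nonneg (Real.exp_pos _).le, mul_comm]
  exact mul_le_mul_of_nonneg_right (hB Z κ (by rw [Complex.norm_real, Real.norm_eq_abs]; exact hκ)) (Real.exp_pos _).le

/-- The even moments. -/
theorem mod_even : ∃ B : ℝ, 1 ≤ B ∧ ∀ (Z k : ℕ) (b : ℝ), 0 < b → b ≤ 1 →
    av (Finset.univ : Finset (TS (SZ K Z) J)) (fun t => SM (XX 𝓛) (SZ K Z) t ^ (2 * k)) ≤
      (2 * k).factorial / b ^ (2 * k) * (2 * B * Real.exp (b ^ 2 * 𝓛.D / 2 * VZ K Z)) := by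
  obtain ⟨B, hB1, hB⟩ := mod_exp_real 𝓛 1 zero_le_one
  refine ⟨B, hB1, fun Z k b hb0 hb1 => ?_⟩
  have h1 := hB Z b (by rw [abs_of_pos hb0]; exact hb1)
  have h2 := hB Z (-b) (by rw [abs_neg, abs_of_pos hb0]; exact hb1)
  rw [neg_sq] at h2
  have hfac : (0 : ℝ) < (2 * k).factorial := by exact_mod_cast Nat.factorial_pos _
  have h3 : ∀ t : TS (SZ K Z) J, SM (XX 𝓛) (SZ K Z) t ^ (2 * k) ≤ (2 * k).factorial / b ^ (2 * k) *
      (Real.exp (b * SM (XX 𝓛) (SZ K Z) t) + Real.exp (-b * SM (XX 𝓛) (SZ K Z) t)) := by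
    intro t
    obtain ⟨y, hy⟩ : ∃ y, y = SM (XX 𝓛) (SZ K Z) t := ⟨_, rfl⟩
    rw [← hy]
    have h4 := Real.pow_div_factorial_le_exp |b * y| (abs_nonneg _) (2 * k)
    have h5 : |b * y| ^ (2 * k) = b ^ (2 * k) * y ^ (2 * k) := by
      rw [← mul_pow, pow_mul, sq_abs, ← pow_mul]
    have h6 : Real.exp |b * y| ≤ Real.exp (b * y) + Real.exp (-b * y) := by
      rcases abs_cases (b * y) with ⟨h, _⟩ | ⟨h, _⟩ <;> rw [h]
      · have := Real.exp_pos (-b * y); linarith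
      · rw [← neg_mul]; have := Real.exp_pos (b * y); linarith
    rw [h5, div_le_iff₀ hfac] at h4
    have hbk : 0 < b ^ (2 * k) := by positivity
    calc y ^ (2 * k) = b ^ (2 * k) * y ^ (2 * k) / b ^ (2 * k) := by field_simp
      _ ≤ (Real.exp |b * y| * (2 * k).factorial) / b ^ (2 * k) := div_le_div_of_nonneg_right h4 hbk.le
      _ ≤ ((Real.exp (b * y) + Real.exp (-b * y)) * (2 * k).factorial) / b ^ (2 * k) := by gcongr
      _ = _ := by ring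
  refine (av_mono _ h3).trans ?_
  rw [av_mul, av_add]
  have : 0 ≤ (2 * k).factorial / b ^ (2 * k) := by positivity
  refine mul_le_mul_of_nonneg_left ?_ this
  have e : 2 * B * Real.exp (b ^ 2 * 𝓛.D / 2 * VZ K Z) = B * Real.exp (b ^ 2 * 𝓛.D / 2 * VZ K Z) +
      B * Real.exp (b ^ 2 * 𝓛.D / 2 * VZ K Z) := by ring
  rw [e]
  exact add_le_add h1 h2

/-- **The normalised sum of the independent variables is asymptotically normal.** -/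
theorem mod_char {R ε : ℝ} (hR : 0 ≤ R) (hε : 0 < ε) : ∃ Z₀ : ℕ, ∀ Z : ℕ, Z₀ ≤ Z → ∀ u : ℝ, |u| ≤ R →
    ‖avg (Finset.univ : Finset (TS (SZ K Z) J)) (fun t => Complex.exp (Complex.I * (u / Real.sqrt (𝓛.D * VZ K Z) : ℝ) *
      SM (XX 𝓛) (SZ K Z) t)) - Complex.exp (-((u : ℂ) ^ 2 / 2))‖ ≤ ε := by
  have hD := 𝓛.D_pos
  obtain ⟨u, hu, hub⟩ := 𝓛.moments 1 zero_le_one
  obtain ⟨S, hS⟩ := tail_small hu (half_pos hε)
  have hcont := (𝓛.Psi_diff.continuous.tendsto 0)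
  rw [𝓛.Psi_zero, Metric.tendsto_nhds_nhds] at hcont
  obtain ⟨δ, hδ, hδ'⟩ := hcont (ε / 2) (half_pos hε)
  set Z₁ : ℕ := S.sup nv with hZ₁
  have hev := (VZ_atTop (K := K)).eventually_ge_atTop (max 1 ((R / min 1 (δ / 2)) ^ 2) / 𝓛.D + 1)
  obtain ⟨Z₂, hZ₂⟩ := Filter.eventually_atTop.1 hev
  refine ⟨max Z₁ Z₂, fun Z hZ w hw => ?_⟩
  have hSZ : S ⊆ SZ K Z := fun v hv => mem_SZ.2 ((Finset.le_sup (f := nv) hv).trans ((le_max_left _ _).trans hZ))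
  have hV := hZ₂ Z ((le_max_right _ _).trans hZ)
  obtain ⟨V, hVd⟩ : ∃ V, V = VZ K Z := ⟨_, rfl⟩
  rw [← hVd] at hV ⊢
  have hmin : 0 < min 1 (δ / 2) := lt_min one_pos (by linarith)
  have hV1 : 0 < V := by
    have : 0 ≤ max 1 ((R / min 1 (δ / 2)) ^ 2) / 𝓛.D := by positivity
    linarith
  have hDV : max 1 ((R / min 1 (δ / 2)) ^ 2) ≤ 𝓛.D * V := by
    have h1 : max 1 ((R / min 1 (δ / 2)) ^ 2) / 𝓛.D ≤ V := by linarith
    rw [div_le_iff₀ hD] at h1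
    linarith
  have hDV0 : 0 < 𝓛.D * V := by positivity
  have hs0 : 0 < Real.sqrt (𝓛.D * V) := Real.sqrt_pos.2 hDV0
  obtain ⟨s, hs⟩ : ∃ s, s = Real.sqrt (𝓛.D * V) := ⟨_, rfl⟩
  rw [← hs] at hs0 ⊢
  have hs2 : s ^ 2 = 𝓛.D * V := by rw [hs]; exact Real.sq_sqrt hDV0.le
  have hκ : |w / s| ≤ min 1 (δ / 2) := by
    rw [abs_div, abs_of_pos hs0, div_le_iff₀ hs0]
    have h1 : R / min 1 (δ / 2) ≤ s := by
      rw [hs]
      exact Real.le_sqrt_of_sq_le ((le_max_right _ _).trans hDV)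
    rw [div_le_iff₀ hmin] at h1
    linarith
  obtain ⟨κ, hκd⟩ : ∃ κ : ℂ, κ = Complex.I * ((w / s : ℝ) : ℂ) := ⟨_, rfl⟩
  have hκn : ‖κ‖ = |w / s| := by rw [hκd, norm_mul, Complex.norm_I, one_mul, Complex.norm_real, Real.norm_eq_abs]
  rw [← hκd, mod_exp, ← hVd]
  have hκ1 : ‖κ‖ ≤ 1 := by rw [hκn]; exact hκ.trans (min_le_left _ _)
  have hκ2 : dist κ 0 < δ := by
    rw [dist_zero_right, hκn]
    have := hκ.trans (min_le_right _ _)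
    linarith
  have hsq : κ ^ 2 * 𝓛.D / 2 * V = -((w : ℂ) ^ 2 / 2) := by
    rw [hκd, mul_pow, Complex.I_sq]
    have e1 : (((w / s : ℝ)) : ℂ) ^ 2 = ((w ^ 2 / (𝓛.D * V) : ℝ) : ℂ) := by
      rw [← Complex.ofReal_pow, div_pow, hs2]
    rw [e1]
    have h1 : (𝓛.D : ℂ) ≠ 0 := by exact_mod_cast hD.ne'
    have h2 : (V : ℂ) ≠ 0 := by exact_mod_cast hV1.ne'
    push_cast
    field_simp
  rw [hsq]
  have e2 : Complex.exp (-((w : ℂ) ^ 2 / 2)) * PZ 𝓛 Z κ - Complex.exp (-((w : ℂ) ^ 2 / 2)) =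
      Complex.exp (-((w : ℂ) ^ 2 / 2)) * ((PZ 𝓛 Z κ - 𝓛.Psi κ) + (𝓛.Psi κ - 1)) := by ring
  rw [e2, norm_mul]
  have h3 : ‖Complex.exp (-((w : ℂ) ^ 2 / 2))‖ ≤ 1 := by
    have e3 : -((w : ℂ) ^ 2 / 2) = ((-(w ^ 2 / 2) : ℝ) : ℂ) := by push_cast; ring
    rw [e3, Complex.norm_exp, Complex.ofReal_re, Real.exp_le_one_iff]
    have := sq_nonneg w
    linarith
  have h4 : ‖PZ 𝓛 Z κ - 𝓛.Psi κ‖ ≤ ε / 2 := by
    have := (tail_bound hu (fun v => hub v κ hκ1) (SZ K Z)).trans_lt (hS _ hSZ)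
    rw [norm_sub_rev] at this
    exact this.le
  have h5 : ‖𝓛.Psi κ - 1‖ ≤ ε / 2 := by
    have := hδ' hκ2
    rw [dist_eq_norm] at this
    exact this.le
  calc _ ≤ 1 * (ε / 2 + ε / 2) := mul_le_mul h3 ((norm_add_le _ _).trans (add_le_add h4 h5)) (norm_nonneg _) zero_le_one
    _ = ε := by ring

end

end Run7.h876.PW
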