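import Pool.Agent.Run7.h876.EN.Eng2

/-!
# The moments of sums of local functions over a box

The power moments of a sum over the places `Nv ≤ Z` of functions of the residues are the moments of the sum of
independent variables, if a power of `Z` is at most the size of the box.
-/

set_option autoImplicit false
set_option linter.unusedSectionVars false

namespace Run7.h876.PW

open NumberField IsDedekindDomain Finset Filter Topology
open Run7.h876.MM (nv kv two_le_nv nv_pos bx avg avg_bx card_bx exists_crt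
  prod_nv_mem norm_avg_le avg_sub' SZ mem_SZ card_SZ instFieldKv instFintypeKv instDecKv)
open Run7.h876.EN

/-- the real mean over a finite set -/
noncomputable def av {α : Type*} (B : Finset α) (f : α → ℝ) : ℝ := (∑ c ∈ B, f c) / (B.card : ℝ)

theorem avg_av {α : Type*} (B : Finset α) (f : α → ℝ) : avg B (fun c => (f c : ℂ)) = ((av B f : ℝ) : ℂ) := by
  unfold avg av
  push_cast
  rfl

section
variable {α : Type*} (B : Finset α)

theorem av_add (f g : α → ℝ) : av B (fun c => f c + g c) = av B f + av B g := by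
  unfold av; rw [Finset.sum_add_distrib, add_div]

theorem av_mul (a : ℝ) (f : α → ℝ) : av B (fun c => a * f c) = a * av B f := by
  unfold av; rw [← Finset.mul_sum]; ring

theorem av_mono {f g : α → ℝ} (h : ∀ c, f c ≤ g c) : av B f ≤ av B g := by
  unfold av
  exact div_le_div_of_nonneg_right (Finset.sum_le_sum fun c _ => h c) (by positivity)

theorem av_nonneg {f : α → ℝ} (h : ∀ c, 0 ≤ f c) : 0 ≤ av B f := by
  unfold av
  exact div_nonneg (Finset.sum_nonneg fun c _ => h c) (by positivity)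

theorem av_sum {β : Type*} (S : Finset β) (f : β → α → ℝ) : av B (fun c => ∑ b ∈ S, f b c) = ∑ b ∈ S, av B (f b) := by
  unfold av
  rw [Finset.sum_comm, Finset.sum_div]

end

section
variable {K : Type} [Field K] [NumberField K]
variable {ι : Type} [Fintype ι] [DecidableEq ι] {J : Type} [Fintype J] [DecidableEq J]
variable (ω : Module.Basis ι ℤ (𝓞 K))
variable (X : ∀ v : HeightOneSpectrum (𝓞 K), (J → kv v) → ℝ)

/-- the sum over the places of `F` as a function of the tuple -/
noncomputable def SB (F : Finset (HeightOneSpectrum (𝓞 K))) (t : J → 𝓞 K) : ℝ := ∑ v ∈ F, X v (rd v t)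

/-- the sum of the independent variables -/
noncomputable def SM (F : Finset (HeightOneSpectrum (𝓞 K))) (t : TS F J) : ℝ := ∑ v : F, X v.1 (t v)

/-- the power of the local function at `v` in the monomial `g` -/
noncomputable def lc {F : Finset (HeightOneSpectrum (𝓞 K))} {i : ℕ} (g : Fin i → F) (v : HeightOneSpectrum (𝓞 K)) (t : J → kv v) : ℂ :=
  (X v t : ℂ) ^ (Finset.univ.filter fun l => (g l).1 = v).card

theorem box_mono (F : Finset (HeightOneSpectrum (𝓞 K))) {i : ℕ} (g : Fin i → F) (t : J → 𝓞 K) :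
    ∏ l, (X (g l).1 (rd (g l).1 t) : ℂ) = ∏ v ∈ Finset.univ.image (fun l => (g l).1), lc X g v (rd v t) := by
  classical
  rw [← Finset.prod_fiberwise_of_maps_to (s := Finset.univ) (t := Finset.univ.image (fun l => (g l).1)) (g := fun l => (g l).1)
    (fun l _ => Finset.mem_image_of_mem _ (Finset.mem_univ l))]
  refine Finset.prod_congr rfl fun v _ => ?_
  unfold lc
  rw [← Finset.prod_const]
  refine Finset.prod_congr rfl fun l hl => ?_
  obtain ⟨_, h⟩ := Finset.mem_filter.1 hl
  subst h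
  rfl

theorem mod_mono (F : Finset (HeightOneSpectrum (𝓞 K))) {i : ℕ} (g : Fin i → F) (t : TS F J) :
    ∏ l, (X (g l).1 (t (g l)) : ℂ) = ∏ v : F, lc X g v.1 (t v) := by
  classical
  rw [← Finset.prod_fiberwise Finset.univ g]
  refine Finset.prod_congr rfl fun v _ => ?_
  unfold lc
  rw [← Finset.prod_const]
  have e : (Finset.univ.filter fun l => (g l).1 = v.1) = Finset.univ.filter fun l => g l = v := by
    refine Finset.filter_congr fun l _ => ?_
    exact ⟨fun h => Subtype.ext h, fun h => by rw [h]⟩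
  rw [e]
  refine Finset.prod_congr rfl fun l hl => ?_
  obtain ⟨_, h⟩ := Finset.mem_filter.1 hl
  subst h
  rfl

theorem avg_one (v : HeightOneSpectrum (𝓞 K)) : avg Finset.univ (fun _ : J → kv v => (1 : ℂ)) = 1 := by
  unfold avg
  rw [Finset.sum_const, nsmul_eq_mul, mul_one]
  refine div_self ?_
  rw [Finset.card_univ]
  exact_mod_cast Fintype.card_pos.ne'

/-- A monomial. -/
theorem mono_close (F : Finset (HeightOneSpectrum (𝓞 K))) {A : ℝ} (hA : 0 ≤ A) (hX : ∀ v t, |X v t| ≤ A) {Z N M : ℕ} (hZ : 1 ≤ Z)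
    (hF : ∀ v ∈ F, nv v ≤ Z) (H : J → ℕ) (hH : ∀ j, M ≤ H j) (hM : Z ^ N ≤ 2 * M + 1) {i : ℕ} (hi : i ≤ N) (g : Fin i → F) :
    ‖avg (box ι H) (fun c => ∏ l, (X (g l).1 (rd (g l).1 (tuple ω c)) : ℂ)) -
      avg (Finset.univ : Finset (TS F J)) (fun t => ∏ l, (X (g l).1 (t (g l)) : ℂ))‖ ≤
      A ^ i * (2 ^ Fintype.card (J × ι) * ((Z : ℝ) ^ N / (2 * M + 1))) := by
  classical
  obtain ⟨S, hS⟩ : ∃ S, S = Finset.univ.image (fun l => (g l).1) := ⟨_, rfl⟩
  have hSF : S ⊆ F := by
    rw [hS]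
    intro v hv
    obtain ⟨l, _, rfl⟩ := Finset.mem_image.1 hv
    exact (g l).2
  have hScard : S.card ≤ i := by
    rw [hS]
    exact Finset.card_image_le.trans (by simp)
  have hN' : (∏ v ∈ S, nv v) ≤ Z ^ N := by
    calc (∏ v ∈ S, nv v) ≤ ∏ _v ∈ S, Z := Finset.prod_le_prod (fun _ _ => Nat.zero_le _) fun v hv => hF v (hSF hv)
      _ = Z ^ S.card := by rw [Finset.prod_const]
      _ ≤ Z ^ N := Nat.pow_le_pow_right hZ (hScard.trans hi)
  have : NeZero (∏ v ∈ S, nv v) := ⟨Finset.prod_ne_zero_iff.2 fun v _ => by have := two_le_nv v; omega⟩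
  have h := box_prod ω S (∏ v ∈ S, nv v) M (prod_nv_mem S) (hN'.trans hM) H hH (lc X g)
    (fun v => A ^ (Finset.univ.filter fun l => (g l).1 = v).card) (fun v _ t => by
      unfold lc
      rw [norm_pow, Complex.norm_real]
      exact pow_le_pow_left₀ (norm_nonneg _) (hX v t) _)
  have e1 : (fun c => ∏ l, (X (g l).1 (rd (g l).1 (tuple ω c)) : ℂ)) = fun c => ∏ v ∈ S, lc X g v (rd v (tuple ω c)) := by
    funext c
    rw [box_mono, hS]
  have e2 : (fun t : TS F J => ∏ l, (X (g l).1 (t (g l)) : ℂ)) = fun t => ∏ v : F, lc X g v.1 (t v) := by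
    funext t
    rw [mod_mono]
  have e3 : ∏ v ∈ S, avg Finset.univ (lc X g v) = ∏ v ∈ F, avg Finset.univ (lc X g v) := by
    refine Finset.prod_subset hSF fun v _ hv => ?_
    have h0 : (Finset.univ.filter fun l => (g l).1 = v) = ∅ := by
      rw [Finset.filter_eq_empty_iff]
      intro l _ hl
      apply hv
      rw [hS, ← hl]
      exact Finset.mem_image_of_mem _ (Finset.mem_univ l)
    have h1 : lc X g v = fun _ => (1 : ℂ) := by
      funext t
      unfold lc
      rw [h0, Finset.card_empty, pow_zero]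
    rw [h1, avg_one]
  have e4 : ∏ v ∈ S, A ^ (Finset.univ.filter fun l => (g l).1 = v).card = A ^ i := by
    rw [Finset.prod_pow_eq_pow_sum, ← Finset.card_eq_sum_card_fiberwise, Finset.card_univ, Fintype.card_fin]
    intro l _
    rw [hS]
    exact Finset.mem_coe.2 (Finset.mem_image_of_mem _ (Finset.mem_univ l))
  rw [e1, e2, avg_prod, ← e3]
  refine h.trans ?_
  rw [e4]
  have h5 : (((∏ v ∈ S, nv v : ℕ) : ℕ) : ℝ) ≤ (Z : ℝ) ^ N := by exact_mod_cast hN'
  calc 2 ^ Fintype.card (J × ι) * ((((∏ v ∈ S, nv v : ℕ) : ℕ) : ℝ) / (2 * M + 1)) * A ^ i ≤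
      2 ^ Fintype.card (J × ι) * ((Z : ℝ) ^ N / (2 * M + 1)) * A ^ i := by gcongr
    _ = _ := by ring

/-- **The moments of the sum over the box are those of the independent variables.** -/
theorem mom_close (F : Finset (HeightOneSpectrum (𝓞 K))) {A : ℝ} (hA : 0 ≤ A) (hX : ∀ v t, |X v t| ≤ A) {Z N M : ℕ} (hZ : 1 ≤ Z)
    (hF : ∀ v ∈ F, nv v ≤ Z) (H : J → ℕ) (hH : ∀ j, M ≤ H j) (hM : Z ^ N ≤ 2 * M + 1) {i : ℕ} (hi : i ≤ N) :
    |av (box ι H) (fun c => SB X F (tuple ω c) ^ i) - av (Finset.univ : Finset (TS F J)) (fun t => SM X F t ^ i)| ≤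
      (F.card * A) ^ i * (2 ^ Fintype.card (J × ι) * ((Z : ℝ) ^ N / (2 * M + 1))) := by
  classical
  have e1 : (((av (box ι H) (fun c => SB X F (tuple ω c) ^ i) : ℝ)) : ℂ) =
      ∑ g : Fin i → F, avg (box ι H) (fun c => ∏ l, (X (g l).1 (rd (g l).1 (tuple ω c)) : ℂ)) := by
    rw [← avg_av]
    have e : (fun c => ((SB X F (tuple ω c) ^ i : ℝ) : ℂ)) = fun c => ∑ g : Fin i → F, ∏ l, (X (g l).1 (rd (g l).1 (tuple ω c)) : ℂ) := by
      funext c
      unfold SB
      rw [← Finset.sum_coe_sort F (fun v => X v (rd v (tuple ω c)))]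
      push_cast
      rw [Fintype.sum_pow]
    rw [e]
    unfold avg
    rw [Finset.sum_comm, Finset.sum_div]
  have e2 : (((av (Finset.univ : Finset (TS F J)) (fun t => SM X F t ^ i) : ℝ)) : ℂ) =
      ∑ g : Fin i → F, avg (Finset.univ : Finset (TS F J)) (fun t => ∏ l, (X (g l).1 (t (g l)) : ℂ)) := by
    rw [← avg_av]
    have e : (fun t : TS F J => ((SM X F t ^ i : ℝ) : ℂ)) = fun t => ∑ g : Fin i → F, ∏ l, (X (g l).1 (t (g l)) : ℂ) := by
      funext t
      unfold SM
      push_cast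
      rw [Fintype.sum_pow]
    rw [e]
    unfold avg
    rw [Finset.sum_comm, Finset.sum_div]
  rw [← Real.norm_eq_abs, ← Complex.norm_real, Complex.ofReal_sub, e1, e2, ← Finset.sum_sub_distrib]
  refine (norm_sum_le _ _).trans ((Finset.sum_le_sum fun g _ => mono_close ω X F hA hX hZ hF H hH hM hi g).trans ?_)
  rw [Finset.sum_const, Finset.card_univ, nsmul_eq_mul, Fintype.card_fun, Fintype.card_fin, Fintype.card_coe]
  push_cast
  rw [mul_pow]
  exact le_of_eq (by ring)

/-- **The exponential moments of the independent variables.** -/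
theorem exp_SM (F : Finset (HeightOneSpectrum (𝓞 K))) (κ : ℂ) :
    avg (Finset.univ : Finset (TS F J)) (fun t => Complex.exp (κ * SM X F t)) =
      ∏ v ∈ F, avg Finset.univ (fun t => Complex.exp (κ * X v t)) := by
  rw [← avg_prod]
  congr 1
  funext t
  unfold SM
  rw [← Complex.exp_sum]
  congr 1
  push_cast
  rw [Finset.mul_sum]

end

end Run7.h876.PW
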